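import Mathlib

set_option autoImplicit false

/-!
Definitions for problem MP_098314_co (piercing pairwise intersecting non-piercing regions).
The plane is `ℝ × ℝ`.
-/

namespace Pool.Agent.Work.MP_098314_co

/-- A Jordan curve in the plane: the image of the unit circle under a continuous injective map. -/
def IsJordanCurve (C : Set (ℝ × ℝ)) : Prop :=
  ∃ γ : Circle → ℝ × ℝ, Continuous γ ∧ Function.Injective γ ∧ Set.range γ = C

/-- A region: a connected compact subset of the plane whose boundary is the union of finitely many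
pairwise disjoint Jordan curves.  We also ask that it is the closure of its interior (this excludes
degenerate sets such as a bare curve). -/
def IsRegion (F : Set (ℝ × ℝ)) : Prop :=
  IsCompact F ∧ IsConnected F ∧ closure (interior F) = F ∧
    ∃ 𝒥 : Finset (Set (ℝ × ℝ)), (∀ C ∈ 𝒥, IsJordanCurve C) ∧
      (∀ C ∈ 𝒥, ∀ C' ∈ 𝒥, C ≠ C' → Disjoint C C') ∧ ⋃ C ∈ 𝒥, C = frontier F

/-- A family is in general position if the boundaries of any two members meet in finitely many
points. -/
def GeneralPosition (𝓕 : Set (Set (ℝ × ℝ))) : Prop :=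
  ∀ F ∈ 𝓕, ∀ G ∈ 𝓕, F ≠ G → (frontier F ∩ frontier G).Finite

/-- A non-piercing family: in general position, and `F \ G` is connected for any two members. -/
def NonPiercing (𝓕 : Set (Set (ℝ × ℝ))) : Prop :=
  GeneralPosition 𝓕 ∧ ∀ F ∈ 𝓕, ∀ G ∈ 𝓕, F ≠ G → IsConnected (F \ G)

/-- A pseudo-disk family: simply connected regions such that the boundaries of any two members
intersect in at most two points. -/
def PseudoDiskFamily (𝓕 : Set (Set (ℝ × ℝ))) : Prop :=
  (∀ F ∈ 𝓕, IsRegion F ∧ SimplyConnectedSpace F) ∧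
    ∀ F ∈ 𝓕, ∀ G ∈ 𝓕, F ≠ G → (frontier F ∩ frontier G).encard ≤ 2

/-- Any two members of the family intersect. -/
def PairwiseIntersecting (𝓕 : Set (Set (ℝ × ℝ))) : Prop :=
  ∀ F ∈ 𝓕, ∀ G ∈ 𝓕, (F ∩ G).Nonempty

/-- The family can be pierced with `k` points: some set of at most `k` points of the plane meets
every member. -/
def CanBePierced (𝓕 : Set (Set (ℝ × ℝ))) (k : ℕ) : Prop :=
  ∃ P : Finset (ℝ × ℝ), P.card ≤ k ∧ ∀ F ∈ 𝓕, ∃ p ∈ P, p ∈ F

end Pool.Agent.Work.MP_098314_co
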