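import Mathlib
import Pool.Agent.Work.MP_098314_co.Defs

set_option autoImplicit false

namespace Pool.Agent.Work.MP_098314_co

open Set

/-- the set between two graphs -/
def shape (a b : ℝ) (L U : ℝ → ℝ) : Set (ℝ × ℝ) :=
  {p | a ≤ p.1 ∧ p.1 ≤ b ∧ L p.1 ≤ p.2 ∧ p.2 ≤ U p.1}

/-- hypotheses for a nice shape -/
structure Nice (a b : ℝ) (L U : ℝ → ℝ) : Prop where
  hab : a < b
  hL : Continuous L
  hU : Continuous U
  hlt : ∀ x, a < x → x < b → L x < U x
  ha : L a = U a
  hb : L b = U b

namespace Nice

variable {a b : ℝ} {L U : ℝ → ℝ}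

lemma le (h : Nice a b L U) {x : ℝ} (hx : a ≤ x) (hx' : x ≤ b) : L x ≤ U x := by
  rcases hx.eq_or_lt with rfl | h1
  · exact h.ha.le
  rcases hx'.eq_or_lt with rfl | h2
  · exact h.hb.le
  exact (h.hlt x h1 h2).le

lemma eq_image (h : Nice a b L U) : shape a b L U =
    (fun q : ℝ × ℝ => (q.1, (1 - q.2) * L q.1 + q.2 * U q.1)) '' (Icc a b ×ˢ Icc (0 : ℝ) 1) := by
  ext ⟨x, y⟩
  simp only [shape, mem_ofPred_eq, mem_image, mem_prod, mem_Icc, Prod.mk.injEq, Prod.exists]
  constructor
  · rintro ⟨h1, h2, h3, h4⟩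
    rcases (h.le h1 h2).eq_or_lt with h5 | h5
    · refine ⟨x, 0, ⟨⟨h1, h2⟩, le_rfl, zero_le_one⟩, rfl, ?_⟩
      have : y = L x := le_antisymm (h4.trans h5.ge) h3
      rw [this]; ring
    · have h6 : 0 < U x - L x := sub_pos.2 h5
      refine ⟨x, (y - L x) / (U x - L x), ⟨⟨h1, h2⟩, ?_, ?_⟩, rfl, ?_⟩
      · apply div_nonneg (by linarith) h6.le
      · rw [div_le_one h6]; linarith
      · field_simp
        ring
  · rintro ⟨x', s, ⟨⟨h1, h2⟩, h3, h4⟩, rfl, rfl⟩
    have h5 := h.le h1 h2
    refine ⟨h1, h2, ?_, ?_⟩ <;> nlinarith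

lemma continuous_map (h : Nice a b L U) :
    Continuous (fun q : ℝ × ℝ => (q.1, (1 - q.2) * L q.1 + q.2 * U q.1)) := by
  have hL := h.hL
  have hU := h.hU
  fun_prop

lemma isCompact (h : Nice a b L U) : IsCompact (shape a b L U) := by
  rw [h.eq_image]
  exact (isCompact_Icc.prod isCompact_Icc).image h.continuous_map

lemma isConnected (h : Nice a b L U) : IsConnected (shape a b L U) := by
  rw [h.eq_image]
  apply IsConnected.image _ _ h.continuous_map.continuousOn
  exact (isConnected_Icc h.hab.le).prod (isConnected_Icc zero_le_one)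

/-- the interior -/
lemma isOpen_core (h : Nice a b L U) :
    IsOpen {p : ℝ × ℝ | a < p.1 ∧ p.1 < b ∧ L p.1 < p.2 ∧ p.2 < U p.1} := by
  have hL := h.hL
  have hU := h.hU
  apply IsOpen.inter (isOpen_lt continuous_const continuous_fst)
  apply IsOpen.inter (isOpen_lt continuous_fst continuous_const)
  apply IsOpen.inter (isOpen_lt (hL.comp continuous_fst) continuous_snd)
  exact isOpen_lt continuous_snd (hU.comp continuous_fst)

lemma interior_eq (h : Nice a b L U) : interior (shape a b L U) =
    {p : ℝ × ℝ | a < p.1 ∧ p.1 < b ∧ L p.1 < p.2 ∧ p.2 < U p.1} := by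
  apply Subset.antisymm
  · rintro ⟨x, y⟩ hp
    rw [mem_interior_iff_mem_nhds] at hp
    have hp0 : (x, y) ∈ shape a b L U := mem_of_mem_nhds hp
    obtain ⟨h1, h2, h3, h4⟩ := hp0
    simp only at h1 h2 h3 h4
    -- vertical line through the point
    have hc : ContinuousAt (fun t : ℝ => (x, t)) y := by fun_prop
    have hv : ∀ᶠ t in nhds y, (x, t) ∈ shape a b L U := hc hp
    rw [Metric.eventually_nhds_iff] at hv
    obtain ⟨ε, hε, hv⟩ := hv
    have hup := hv (y := y + ε / 2) (by rw [Real.dist_eq]; rw [abs_of_nonneg] <;> linarith)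
    have hdn := hv (y := y - ε / 2) (by rw [Real.dist_eq, abs_sub_comm]; rw [abs_of_nonneg] <;> linarith)
    have hup2 := hup.2.2.2
    have hdn2 := hdn.2.2.1
    simp only at hup2 hdn2
    have h5 : L x < U x := by linarith
    refine ⟨?_, ?_, ?_, ?_⟩
    · rcases h1.eq_or_lt with h6 | h6
      · subst h6
        exact absurd h.ha h5.ne
      · exact h6
    · rcases h2.eq_or_lt with h6 | h6
      · subst h6
        exact absurd h.hb h5.ne
      · exact h6
    · simp only; linarith
    · simp only; linarith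
  · apply interior_maximal _ h.isOpen_core
    rintro ⟨x, y⟩ ⟨h1, h2, h3, h4⟩
    exact ⟨h1.le, h2.le, h3.le, h4.le⟩

lemma frontier_eq (h : Nice a b L U) : frontier (shape a b L U) =
    {p : ℝ × ℝ | a ≤ p.1 ∧ p.1 ≤ b ∧ (p.2 = L p.1 ∨ p.2 = U p.1)} := by
  rw [frontier, h.isCompact.isClosed.closure_eq, h.interior_eq]
  ext ⟨x, y⟩
  simp only [shape, mem_sdiff, mem_ofPred_eq]
  constructor
  · rintro ⟨⟨h1, h2, h3, h4⟩, h5⟩
    refine ⟨h1, h2, ?_⟩
    by_contra hc
    rw [not_or] at hc
    have h6 : L x < y := lt_of_le_of_ne h3 (Ne.symm hc.1)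
    have h7 : y < U x := lt_of_le_of_ne h4 hc.2
    apply h5
    refine ⟨?_, ?_, h6, h7⟩
    · rcases h1.eq_or_lt with h8 | h8
      · subst h8; have := h.ha; linarith
      · exact h8
    · rcases h2.eq_or_lt with h8 | h8
      · subst h8; have := h.hb; linarith
      · exact h8
  · rintro ⟨h1, h2, h3⟩
    have h4 := h.le h1 h2
    rcases h3 with rfl | rfl
    · exact ⟨⟨h1, h2, le_rfl, h4⟩, fun h5 => lt_irrefl _ h5.2.2.1⟩
    · exact ⟨⟨h1, h2, h4, le_rfl⟩, fun h5 => lt_irrefl _ h5.2.2.2⟩

lemma closure_interior (h : Nice a b L U) :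
    closure (interior (shape a b L U)) = shape a b L U := by
  apply Subset.antisymm
  · exact (closure_mono interior_subset).trans h.isCompact.isClosed.closure_eq.le
  · -- it is enough to approximate
    have hmid : ∀ p : ℝ × ℝ, a < p.1 → p.1 < b → L p.1 ≤ p.2 → p.2 ≤ U p.1 →
        p ∈ closure (interior (shape a b L U)) := by
      rintro ⟨x, y⟩ h1 h2 h3 h4
      simp only at h1 h2 h3 h4
      have h5 := h.hlt x h1 h2
      -- points (x, (1-s) y + s m)
      set m := (L x + U x) / 2 with hm
      have hc : Continuous (fun s : ℝ => (x, (1 - s) * y + s * m)) := by fun_prop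
      have h0 : (x, y) = (fun s : ℝ => (x, (1 - s) * y + s * m)) 0 := by simp
      rw [h0]
      apply mem_closure_of_tendsto (f := fun s : ℝ => (x, (1 - s) * y + s * m))
        (b := nhdsWithin 0 (Ioi 0))
      · exact (hc.tendsto 0).mono_left nhdsWithin_le_nhds
      · have : ∀ᶠ s in nhdsWithin (0 : ℝ) (Ioi 0), s ∈ Ioo (0 : ℝ) 1 :=
          Ioo_mem_nhdsGT zero_lt_one
        filter_upwards [this] with s hs
        rw [h.interior_eq]
        refine ⟨h1, h2, ?_, ?_⟩
        · simp only
          have := hs.1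
          have := hs.2
          have h6 : L x < m := by rw [hm]; linarith
          nlinarith
        · simp only
          have := hs.1
          have := hs.2
          have h6 : m < U x := by rw [hm]; linarith
          nlinarith
    rintro ⟨x, y⟩ ⟨h1, h2, h3, h4⟩
    simp only at h1 h2 h3 h4
    by_cases hx : a < x ∧ x < b
    · exact hmid (x, y) hx.1 hx.2 h3 h4
    · -- an end point: approximate along the lower graph
      have hy : y = L x := by
        rcases h1.eq_or_lt with h5 | h5
        · subst h5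
          exact le_antisymm (h4.trans h.ha.ge) h3
        · rcases h2.eq_or_lt with h6 | h6
          · subst h6
            exact le_antisymm (h4.trans h.hb.ge) h3
          · exact absurd ⟨h5, h6⟩ hx
      rw [← isClosed_closure.closure_eq (s := closure (interior (shape a b L U)))]
      set c := (a + b) / 2 with hcdef
      have hab := h.hab
      have hL := h.hL
      have hc : Continuous (fun s : ℝ => ((1 - s) * x + s * c, L ((1 - s) * x + s * c))) := by
        fun_prop
      have h0 : (x, y) = (fun s : ℝ => ((1 - s) * x + s * c, L ((1 - s) * x + s * c))) 0 := by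
        simp [hy]
      rw [h0]
      apply mem_closure_of_tendsto
        (f := fun s : ℝ => ((1 - s) * x + s * c, L ((1 - s) * x + s * c)))
        (b := nhdsWithin 0 (Ioi 0))
      · exact (hc.tendsto 0).mono_left nhdsWithin_le_nhds
      · have : ∀ᶠ s in nhdsWithin (0 : ℝ) (Ioi 0), s ∈ Ioo (0 : ℝ) 1 :=
          Ioo_mem_nhdsGT zero_lt_one
        filter_upwards [this] with s hs
        have e1 := hs.1
        have e2 := hs.2
        have e3 : a < c := by rw [hcdef]; linarith
        have e4 : c < b := by rw [hcdef]; linarith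
        have e5 : a < (1 - s) * x + s * c := by nlinarith
        have e6 : (1 - s) * x + s * c < b := by nlinarith
        exact hmid _ e5 e6 le_rfl (h.hlt _ e5 e6).le

end Nice

end Pool.Agent.Work.MP_098314_co
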