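import Mathlib
import Pool.Agent.Work.MP_098314_co.Shape

set_option autoImplicit false

namespace Pool.Agent.Work.MP_098314_co

open Set

namespace Nice

variable {a b : ℝ} {L U : ℝ → ℝ}

/-- parametrisation of the boundary -/
noncomputable def gam (a b : ℝ) (L U : ℝ → ℝ) (z : Circle) : ℝ × ℝ :=
  (a + (b - a) * (1 + (z : ℂ).re) / 2,
    if 0 ≤ (z : ℂ).im then U (a + (b - a) * (1 + (z : ℂ).re) / 2)
    else L (a + (b - a) * (1 + (z : ℂ).re) / 2))

lemma circle_sq (z : Circle) : (z : ℂ).re ^ 2 + (z : ℂ).im ^ 2 = 1 := by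
  have h := Circle.normSq_coe z
  rw [Complex.normSq_apply] at h
  nlinarith

lemma continuous_gam (h : Nice a b L U) : Continuous (gam a b L U) := by
  have hre : Continuous (fun z : Circle => (z : ℂ).re) :=
    Complex.continuous_re.comp continuous_subtype_val
  have him : Continuous (fun z : Circle => (z : ℂ).im) :=
    Complex.continuous_im.comp continuous_subtype_val
  have hx : Continuous (fun z : Circle => a + (b - a) * (1 + (z : ℂ).re) / 2) := by fun_prop
  apply Continuous.prodMk hx
  apply Continuous.if_le (h.hU.comp hx) (h.hL.comp hx) continuous_const him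
  intro z hz
  have h1 := circle_sq z
  rw [← hz] at h1
  have h2 : ((z : ℂ).re - 1) * ((z : ℂ).re + 1) = 0 := by nlinarith
  rcases mul_eq_zero.1 h2 with h3 | h3
  · have h4 : (z : ℂ).re = 1 := by linarith
    have h5 : a + (b - a) * (1 + (z : ℂ).re) / 2 = b := by rw [h4]; ring
    simp only [Function.comp, h5, h.hb]
  · have h4 : (z : ℂ).re = -1 := by linarith
    have h5 : a + (b - a) * (1 + (z : ℂ).re) / 2 = a := by rw [h4]; ring
    simp only [Function.comp, h5, h.ha]

lemma gam_x_mem (h : Nice a b L U) (z : Circle) :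
    a ≤ a + (b - a) * (1 + (z : ℂ).re) / 2 ∧ a + (b - a) * (1 + (z : ℂ).re) / 2 ≤ b := by
  have h1 := circle_sq z
  have h2 : -1 ≤ (z : ℂ).re := by nlinarith [sq_nonneg (z : ℂ).im]
  have h3 : (z : ℂ).re ≤ 1 := by nlinarith [sq_nonneg (z : ℂ).im]
  have hab := h.hab
  constructor
  · have : 0 ≤ (b - a) * (1 + (z : ℂ).re) := mul_nonneg (by linarith) (by linarith)
    linarith
  · have : (b - a) * (1 + (z : ℂ).re) ≤ (b - a) * 2 :=
      mul_le_mul_of_nonneg_left (by linarith) (by linarith)
    linarith

lemma injective_gam (h : Nice a b L U) : Function.Injective (gam a b L U) := by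
  have key : ∀ z w : Circle, gam a b L U z = gam a b L U w → 0 < (z : ℂ).im → ¬ (w : ℂ).im < 0 := by
    intro z w hzw hz hw
    have e1 := congrArg Prod.fst hzw
    have e2 := congrArg Prod.snd hzw
    simp only [gam] at e1 e2
    rw [if_pos hz.le, if_neg (not_le.2 hw), ← e1] at e2
    have h1 := circle_sq z
    have h2 : -1 < (z : ℂ).re := by nlinarith [sq_pos_of_pos hz]
    have h3 : (z : ℂ).re < 1 := by nlinarith [sq_pos_of_pos hz]
    have hab := h.hab
    have h4 : 0 < (b - a) * (1 + (z : ℂ).re) := mul_pos (by linarith) (by linarith)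
    have h5 : (b - a) * (1 + (z : ℂ).re) < (b - a) * 2 :=
      mul_lt_mul_of_pos_left (by linarith) (by linarith)
    have := h.hlt (a + (b - a) * (1 + (z : ℂ).re) / 2) (by linarith) (by linarith)
    linarith
  intro z w hzw
  have e1 := congrArg Prod.fst hzw
  simp only [gam] at e1
  have hab := h.hab
  have hre : (z : ℂ).re = (w : ℂ).re := by
    have h1 : (b - a) * ((z : ℂ).re - (w : ℂ).re) = 0 := by linarith
    rcases mul_eq_zero.1 h1 with h2 | h2 <;> linarith
  have h1 := circle_sq z
  have h2 := circle_sq w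
  have h3 : ((z : ℂ).im - (w : ℂ).im) * ((z : ℂ).im + (w : ℂ).im) = 0 := by
    rw [hre] at h1; nlinarith
  have him : (z : ℂ).im = (w : ℂ).im := by
    rcases mul_eq_zero.1 h3 with h4 | h4
    · linarith
    · rcases lt_trichotomy (z : ℂ).im 0 with h5 | h5 | h5
      · exact absurd h5 (key w z hzw.symm (by linarith))
      · linarith
      · exact absurd (show (w : ℂ).im < 0 by linarith) (key z w hzw h5)
  apply Circle.ext
  exact Complex.ext hre him

lemma range_gam (h : Nice a b L U) : range (gam a b L U) = frontier (shape a b L U) := by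
  rw [h.frontier_eq]
  have hab := h.hab
  apply Subset.antisymm
  · rintro _ ⟨z, rfl⟩
    have hx := h.gam_x_mem z
    refine ⟨hx.1, hx.2, ?_⟩
    simp only [gam]
    split_ifs
    · exact Or.inr rfl
    · exact Or.inl rfl
  · rintro ⟨x, y⟩ ⟨h1, h2, h3⟩
    simp only at h1 h2 h3
    set c := 2 * (x - a) / (b - a) - 1 with hc
    have hba : 0 < b - a := sub_pos.2 hab
    have hc1 : -1 ≤ c := by
      have : 0 ≤ 2 * (x - a) / (b - a) := div_nonneg (by linarith) hba.le
      linarith
    have hc2 : c ≤ 1 := by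
      have : 2 * (x - a) / (b - a) ≤ 2 := by rw [div_le_iff₀ hba]; linarith
      linarith
    have hcx : a + (b - a) * (1 + c) / 2 = x := by
      rw [hc]; field_simp; ring
    have hs0 : 0 ≤ 1 - c ^ 2 := by nlinarith
    have hss := Real.sq_sqrt hs0
    have hsn := Real.sqrt_nonneg (1 - c ^ 2)
    rcases h3 with h3 | h3
    · -- lower graph
      have hm : (⟨c, -Real.sqrt (1 - c ^ 2)⟩ : ℂ) ∈ Submonoid.unitSphere ℂ := by
        change _ ∈ Metric.sphere (0 : ℂ) 1
        rw [mem_sphere_zero_iff_norm, Complex.norm_def, Complex.normSq_mk]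
        rw [show c * c + -Real.sqrt (1 - c ^ 2) * -Real.sqrt (1 - c ^ 2) = 1 by nlinarith]
        simp
      refine ⟨⟨_, hm⟩, ?_⟩
      simp only [gam]
      rw [hcx]
      by_cases h0 : 0 ≤ -Real.sqrt (1 - c ^ 2)
      · rw [if_pos h0]
        have h5 : Real.sqrt (1 - c ^ 2) = 0 := le_antisymm (by linarith) hsn
        rw [h5] at hss
        have h6 : (c - 1) * (c + 1) = 0 := by nlinarith
        have h7 : U x = L x := by
          rcases mul_eq_zero.1 h6 with h7 | h7
          · have : x = b := by rw [← hcx, show c = 1 by linarith]; ring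
            rw [this, h.hb]
          · have : x = a := by rw [← hcx, show c = -1 by linarith]; ring
            rw [this, h.ha]
        rw [h7, h3]
      · rw [if_neg h0, h3]
    · have hm : (⟨c, Real.sqrt (1 - c ^ 2)⟩ : ℂ) ∈ Submonoid.unitSphere ℂ := by
        change _ ∈ Metric.sphere (0 : ℂ) 1
        rw [mem_sphere_zero_iff_norm, Complex.norm_def, Complex.normSq_mk]
        rw [show c * c + Real.sqrt (1 - c ^ 2) * Real.sqrt (1 - c ^ 2) = 1 by nlinarith]
        simp
      refine ⟨⟨_, hm⟩, ?_⟩
      simp only [gam]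
      rw [hcx, if_pos hsn, h3]

lemma isJordanCurve (h : Nice a b L U) : IsJordanCurve (frontier (shape a b L U)) :=
  ⟨gam a b L U, h.continuous_gam, h.injective_gam, h.range_gam⟩

lemma isRegion (h : Nice a b L U) : IsRegion (shape a b L U) := by
  refine ⟨h.isCompact, h.isConnected, h.closure_interior, {frontier (shape a b L U)}, ?_, ?_, ?_⟩
  · intro C hC
    rw [Finset.mem_singleton] at hC
    rw [hC]; exact h.isJordanCurve
  · intro C hC C' hC' hne
    rw [Finset.mem_singleton] at hC hC'
    exact absurd (hC.trans hC'.symm) hne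
  · simp

/-- retraction of the plane onto the shape -/
noncomputable def retr (a b : ℝ) (L U : ℝ → ℝ) (p : ℝ × ℝ) : ℝ × ℝ :=
  (max a (min b p.1), max (L (max a (min b p.1))) (min (U (max a (min b p.1))) p.2))

lemma retr_mem (h : Nice a b L U) (p : ℝ × ℝ) : retr a b L U p ∈ shape a b L U := by
  have hab := h.hab
  have h1 : a ≤ max a (min b p.1) := le_max_left _ _
  have h2 : max a (min b p.1) ≤ b := max_le hab.le (min_le_left _ _)
  have h3 := h.le h1 h2
  exact ⟨h1, h2, le_max_left _ _, max_le h3 (min_le_left _ _)⟩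

lemma retr_eq {p : ℝ × ℝ} (hp : p ∈ shape a b L U) : retr a b L U p = p := by
  obtain ⟨h1, h2, h3, h4⟩ := hp
  have e1 : max a (min b p.1) = p.1 := by rw [min_eq_right h2, max_eq_right h1]
  unfold retr
  rw [e1, min_eq_right h4, max_eq_right h3]

lemma continuous_retr (h : Nice a b L U) : Continuous (retr a b L U) := by
  have hL := h.hL
  have hU := h.hU
  unfold retr
  fun_prop

lemma contractible (h : Nice a b L U) : ContractibleSpace (shape a b L U) := by
  rw [contractible_iff_id_nullhomotopic]
  let r : C(ℝ × ℝ, shape a b L U) :=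
    ⟨fun p => ⟨retr a b L U p, h.retr_mem p⟩, h.continuous_retr.subtype_mk _⟩
  let i : C(shape a b L U, ℝ × ℝ) := ⟨Subtype.val, continuous_subtype_val⟩
  have h1 : ContinuousMap.id (shape a b L U) = (r.comp (ContinuousMap.id (ℝ × ℝ))).comp i := by
    ext1 p
    apply Subtype.ext
    exact (retr_eq p.2).symm
  rw [h1]
  exact ((id_nullhomotopic (ℝ × ℝ)).comp_right r).comp_left i

lemma simplyConnected (h : Nice a b L U) : SimplyConnectedSpace (shape a b L U) := by
  have := h.contractible
  infer_instance

end Nice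

end Pool.Agent.Work.MP_098314_co
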