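import Mathlib
import Pool.Agent.Work.MP_098314_co.Jordan

set_option autoImplicit false

namespace Pool.Agent.Work.MP_098314_co

open Set

/-- piecewise linear interpolation of the values `f 0, f 1, …, f K` at `0, 1, …, K` -/
noncomputable def pl (K : ℕ) (f : ℕ → ℕ) (x : ℝ) : ℝ :=
  (f 0 : ℝ) + ∑ j ∈ Finset.range K, ((f (j + 1) : ℝ) - (f j : ℝ)) * max 0 (min 1 (x - j))

lemma continuous_pl (K : ℕ) (f : ℕ → ℕ) : Continuous (pl K f) := by
  unfold pl
  fun_prop

lemma pl_eq {K : ℕ} (f : ℕ → ℕ) {k : ℕ} (hk : k < K) {x : ℝ} (h1 : (k : ℝ) ≤ x)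
    (h2 : x ≤ k + 1) :
    pl K f x = (f k : ℝ) + (x - k) * ((f (k + 1) : ℝ) - (f k : ℝ)) := by
  have key : ∀ n, n ≤ K → ∑ j ∈ Finset.range n,
      ((f (j + 1) : ℝ) - (f j : ℝ)) * max 0 (min 1 (x - j)) =
      if n ≤ k then (f n : ℝ) - f 0 else (f k : ℝ) - f 0 + (x - k) * ((f (k + 1) : ℝ) - (f k : ℝ)) := by
    intro n
    induction n with
    | zero => intro _; simp
    | succ n ih =>
      intro hn
      rw [Finset.sum_range_succ, ih (by omega)]
      rcases lt_trichotomy n k with h | h | h
      · rw [if_pos h.le, if_pos (by omega)]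
        have h3 : (n : ℝ) + 1 ≤ k := by exact_mod_cast h
        rw [min_eq_left (by linarith), max_eq_right zero_le_one]
        ring
      · subst h
        rw [if_pos le_rfl, if_neg (by omega)]
        rw [min_eq_right (by linarith), max_eq_right (by linarith)]
        ring
      · rw [if_neg (by omega), if_neg (by omega)]
        have h3 : (k : ℝ) + 1 ≤ n := by exact_mod_cast h
        rw [min_eq_right (by linarith), max_eq_left (by linarith)]
        ring
  unfold pl
  rw [key K le_rfl, if_neg (by omega)]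
  ring

lemma pl_nat {K : ℕ} (f : ℕ → ℕ) {k : ℕ} (hK : 0 < K) (hk : k ≤ K) : pl K f (k : ℝ) = f k := by
  rcases Nat.eq_zero_or_pos k with rfl | h0
  · rw [pl_eq f hK (by simp) (by simp)]
    simp
  · obtain ⟨k, rfl⟩ : ∃ j, k = j + 1 := ⟨k - 1, by omega⟩
    rw [pl_eq f (k := k) (by omega) (by push_cast; linarith) (by push_cast; linarith)]
    push_cast
    ring

/-- every real in `[a, b]` (with `a < b` naturals) lies in a unit interval inside `[a,b]` -/
lemma exists_strip {a b : ℕ} (hab : a < b) {x : ℝ} (h1 : (a : ℝ) ≤ x) (h2 : x ≤ b) :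
    ∃ k : ℕ, a ≤ k ∧ k + 1 ≤ b ∧ (k : ℝ) ≤ x ∧ x ≤ k + 1 := by
  have hx0 : 0 ≤ x := le_trans (Nat.cast_nonneg a) h1
  rcases h2.eq_or_lt with h3 | h3
  · refine ⟨b - 1, by omega, by omega, ?_, ?_⟩
    · rw [h3, Nat.cast_sub (by omega)]; push_cast; linarith
    · rw [h3, Nat.cast_sub (by omega)]; push_cast; linarith
  · refine ⟨⌊x⌋₊, Nat.le_floor h1, ?_, Nat.floor_le hx0, (Nat.lt_floor_add_one x).le⟩
    have : ⌊x⌋₊ < b := by
      rw [Nat.floor_lt hx0]; exact h3
    omega

/-- checkable hypotheses for a disk -/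
structure DiskOK (K a b : ℕ) (lo up : ℕ → ℕ) : Prop where
  hab : a + 2 ≤ b
  hbK : b ≤ K
  ha : lo a = up a
  hb : lo b = up b
  hlt : ∀ k, a < k → k < b → lo k < up k

lemma DiskOK.nice {K a b : ℕ} {lo up : ℕ → ℕ} (h : DiskOK K a b lo up) :
    Nice (a : ℝ) (b : ℝ) (pl K lo) (pl K up) where
  hab := by
    have := h.hab
    exact_mod_cast (show a < b by omega)
  hL := continuous_pl K lo
  hU := continuous_pl K up
  ha := by
    have h1 := h.hab
    have h2 := h.hbK
    rw [pl_nat lo (by omega) (by omega), pl_nat up (by omega) (by omega), h.ha]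
  hb := by
    have h1 := h.hab
    have h2 := h.hbK
    rw [pl_nat lo (by omega) (by omega), pl_nat up (by omega) (by omega), h.hb]
  hlt := by
    intro x hx1 hx2
    have h1 := h.hab
    have h2 := h.hbK
    obtain ⟨k, hk1, hk2, hk3, hk4⟩ := exists_strip (show a < b by omega) hx1.le hx2.le
    rw [pl_eq lo (show k < K by omega) hk3 hk4, pl_eq up (show k < K by omega) hk3 hk4]
    -- values at the two ends
    have e1 : k = a ∨ lo k < up k := by
      rcases Nat.eq_or_lt_of_le hk1 with h3 | h3
      · exact Or.inl h3.symm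
      · exact Or.inr (h.hlt k h3 (by omega))
    have e2 : k + 1 = b ∨ lo (k + 1) < up (k + 1) := by
      rcases Nat.eq_or_lt_of_le hk2 with h3 | h3
      · exact Or.inl h3
      · exact Or.inr (h.hlt (k + 1) (by omega) h3)
    rcases e1 with e1 | e1
    · have e3 : lo (k + 1) < up (k + 1) := by
        rcases e2 with e2 | e2
        · omega
        · exact e2
      have e4 : lo k = up k := by rw [e1, h.ha]
      have e5 : (lo (k + 1) : ℝ) < up (k + 1) := by exact_mod_cast e3
      have e6 : (lo k : ℝ) = up k := by exact_mod_cast e4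
      have e7 : 0 < x - k := by rw [e1]; linarith
      have e8 : 0 < (x - k) * ((up (k + 1) : ℝ) - lo (k + 1)) := mul_pos e7 (by linarith)
      rw [e6]
      nlinarith
    · have e5 : (lo k : ℝ) < up k := by exact_mod_cast e1
      rcases e2 with e2 | e2
      · have e4 : lo (k + 1) = up (k + 1) := by rw [e2, h.hb]
        have e6 : (lo (k + 1) : ℝ) = up (k + 1) := by exact_mod_cast e4
        have e7 : 0 < (k : ℝ) + 1 - x := by
          have : (b : ℝ) = k + 1 := by rw [← e2]; push_cast; ring
          linarith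
        have e8 : 0 < ((k : ℝ) + 1 - x) * ((up k : ℝ) - lo k) := mul_pos e7 (by linarith)
        rw [e6]
        nlinarith
      · have e6 : (lo (k + 1) : ℝ) < up (k + 1) := by exact_mod_cast e2
        have e7 : 0 ≤ x - k := by linarith
        have e8 : 0 ≤ (k : ℝ) + 1 - x := by linarith
        have e9 : 0 ≤ (x - k) * ((up (k + 1) : ℝ) - lo (k + 1)) := mul_nonneg e7 (by linarith)
        have e10 : 0 ≤ ((k : ℝ) + 1 - x) * ((up k : ℝ) - lo k) := mul_nonneg e8 (by linarith)
        rcases e7.eq_or_lt with e11 | e11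
        · have : x - k = 0 := e11.symm
          rw [this]; simp; exact e1
        · have e12 : 0 < (x - k) * ((up (k + 1) : ℝ) - lo (k + 1)) := mul_pos e11 (by linarith)
          nlinarith

end Pool.Agent.Work.MP_098314_co
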