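import Mathlib
import Pool.Agent.Work.MP_098314_co.PL

set_option autoImplicit false

namespace Pool.Agent.Work.MP_098314_co

open Set

/-- combinatorial data of a disk: it lives over the columns `a, …, b`, with lower level `lo k` and
upper level `up k` over the column `k` -/
structure Dk where
  a : ℕ
  b : ℕ
  lo : ℕ → ℕ
  up : ℕ → ℕ

namespace Dk

/-- the set in the plane -/
noncomputable def set (K : ℕ) (d : Dk) : Set (ℝ × ℝ) := shape d.a d.b (pl K d.lo) (pl K d.up)

/-- lower or upper level -/
def val (d : Dk) (f : Bool) (k : ℕ) : ℕ := if f then d.up k else d.lo k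

/-- the order of two levels changes between the columns `k` and `k + 1` -/
def crossAt (d e : Dk) (f g : Bool) (k : ℕ) : Bool :=
  decide (d.val f k < e.val g k) != decide (d.val f (k + 1) < e.val g (k + 1))

/-- the strips over which two given boundary curves cross -/
def crossList (K : ℕ) (d e : Dk) (f g : Bool) : List ℕ :=
  (List.range K).filter (fun k => decide (d.a ≤ k) && decide (e.a ≤ k) && decide (k < d.b) &&
    decide (k < e.b) && crossAt d e f g k)

/-- levels of the two disks are different over common columns -/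
def distinct (K : ℕ) (d e : Dk) : Bool :=
  (List.range (K + 1)).all (fun k => !(decide (d.a ≤ k) && decide (e.a ≤ k) && decide (k ≤ d.b) &&
    decide (k ≤ e.b)) || (d.lo k != e.lo k && d.lo k != e.up k && d.up k != e.lo k &&
      d.up k != e.up k))

/-- check for at most two crossings -/
def crossOK (K : ℕ) (d e : Dk) : Bool :=
  decide (max d.a e.a < min d.b e.b) && distinct K d e &&
  decide ((crossList K d e false false).length + (crossList K d e false true).length +
    (crossList K d e true false).length + (crossList K d e true true).length ≤ 2)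

/-- the crossing point of two boundary curves over a strip -/
noncomputable def crossPt (d e : Dk) (f g : Bool) (k : ℕ) : ℝ × ℝ :=
  let d0 : ℝ := (d.val f k : ℝ) - e.val g k
  let d1 : ℝ := (d.val f (k + 1) : ℝ) - e.val g (k + 1)
  (k + d0 / (d0 - d1), d.val f k + d0 / (d0 - d1) * ((d.val f (k + 1) : ℝ) - d.val f k))

lemma distinct_val {K : ℕ} {d e : Dk} (h : distinct K d e = true) {k : ℕ} (hk : k ≤ K)
    (h1 : d.a ≤ k) (h2 : e.a ≤ k) (h3 : k ≤ d.b) (h4 : k ≤ e.b) (f g : Bool) :
    d.val f k ≠ e.val g k := by
  unfold distinct at h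
  rw [List.all_eq_true] at h
  have := h k (List.mem_range.2 (by omega))
  simp only [h1, h2, h3, h4, decide_true, Bool.and_self, Bool.not_true, Bool.false_or,
    Bool.and_eq_true, bne_iff_ne, ne_eq] at this
  obtain ⟨⟨⟨h5, h6⟩, h7⟩, h8⟩ := this
  cases f <;> cases g <;> simp [val, h5, h6, h7, h8]

lemma cross_of_eq {K : ℕ} {d e : Dk} (f g : Bool) {k : ℕ} (hk : k < K)
    (hd0 : d.val f k ≠ e.val g k) (hd1 : d.val f (k + 1) ≠ e.val g (k + 1)) {x : ℝ}
    (h1 : (k : ℝ) ≤ x) (h2 : x ≤ k + 1) (heq : pl K (d.val f) x = pl K (e.val g) x) :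
    crossAt d e f g k = true ∧ (x, pl K (d.val f) x) = crossPt d e f g k := by
  rw [pl_eq _ hk h1 h2, pl_eq _ hk h1 h2] at heq
  have hd0' : (d.val f k : ℝ) - e.val g k ≠ 0 := by
    rw [sub_ne_zero]; exact_mod_cast hd0
  have hd1' : (d.val f (k + 1) : ℝ) - e.val g (k + 1) ≠ 0 := by
    rw [sub_ne_zero]; exact_mod_cast hd1
  set u0 : ℝ := (d.val f k : ℝ) - e.val g k with hu0
  set u1 : ℝ := (d.val f (k + 1) : ℝ) - e.val g (k + 1) with hu1
  have hlin : (1 - (x - k)) * u0 + (x - k) * u1 = 0 := by
    rw [hu0, hu1]; linarith
  have ht0 : 0 ≤ x - k := by linarith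
  have ht1 : 0 ≤ 1 - (x - k) := by linarith
  have hne : u0 - u1 ≠ 0 := by
    intro h0
    have : u1 = u0 := by linarith
    rw [this] at hlin
    apply hd0'
    linarith
  have hx : x - k = u0 / (u0 - u1) := by
    rw [eq_div_iff hne]; linarith
  refine ⟨?_, ?_⟩
  · unfold crossAt
    rw [bne_iff_ne]
    intro hc
    rw [decide_eq_decide] at hc
    rcases lt_trichotomy u0 0 with h3 | h3 | h3
    · have h4 : d.val f k < e.val g k := by
        have : (d.val f k : ℝ) < e.val g k := by linarith
        exact_mod_cast this
      have h5 := hc.1 h4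
      have h6 : u1 < 0 := by
        have : (d.val f (k + 1) : ℝ) < e.val g (k + 1) := by exact_mod_cast h5
        linarith
      rcases ht0.eq_or_lt with h7 | h7
      · rw [← h7] at hlin; simp at hlin; exact hd0' hlin
      · have := mul_neg_of_pos_of_neg h7 h6
        have := mul_nonpos_of_nonneg_of_nonpos ht1 h3.le
        linarith
    · exact hd0' h3
    · have h4 : ¬ (d.val f k < e.val g k) := by
        intro h4
        have : (d.val f k : ℝ) < e.val g k := by exact_mod_cast h4
        linarith
      have h5 : ¬ (d.val f (k + 1) < e.val g (k + 1)) := fun h => h4 (hc.2 h)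
      have h6 : 0 < u1 := by
        have : (e.val g (k + 1) : ℝ) ≤ d.val f (k + 1) := by exact_mod_cast not_lt.1 h5
        rcases (sub_nonneg.2 this).eq_or_lt with h8 | h8
        · exact absurd h8.symm hd1'
        · exact h8
      rcases ht0.eq_or_lt with h7 | h7
      · rw [← h7] at hlin; simp at hlin; exact hd0' hlin
      · have := mul_pos h7 h6
        have := mul_nonneg ht1 h3.le
        linarith
  · unfold crossPt
    rw [pl_eq _ hk h1 h2]
    simp only
    rw [← hu0, ← hu1, ← hx]
    ext
    · simp
    · simp

lemma val_true (d : Dk) : d.val true = d.up := by funext k; simp [val]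
lemma val_false (d : Dk) : d.val false = d.lo := by funext k; simp [val]

lemma frontier_inter_encard {K : ℕ} {d e : Dk} (hd : DiskOK K d.a d.b d.lo d.up)
    (he : DiskOK K e.a e.b e.lo e.up) (h : crossOK K d e = true) :
    (frontier (d.set K) ∩ frontier (e.set K)).encard ≤ 2 := by
  unfold crossOK at h
  simp only [Bool.and_eq_true, decide_eq_true_eq] at h
  obtain ⟨⟨h1, h2⟩, h3⟩ := h
  -- the finite set of crossing points
  let T : Bool → Bool → Finset (ℝ × ℝ) := fun f g =>
    ((crossList K d e f g).map (crossPt d e f g)).toFinset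
  have hT : ∀ f g, (T f g).card ≤ (crossList K d e f g).length := by
    intro f g
    refine (List.toFinset_card_le _).trans ?_
    rw [List.length_map]
  have hsub : frontier (d.set K) ∩ frontier (e.set K) ⊆
      ((T false false ∪ T false true ∪ T true false ∪ T true true : Finset (ℝ × ℝ)) :
        Set (ℝ × ℝ)) := by
    rintro ⟨x, y⟩ ⟨hp, hq⟩
    unfold set at hp hq
    rw [hd.nice.frontier_eq] at hp
    rw [he.nice.frontier_eq] at hq
    obtain ⟨p1, p2, p3⟩ := hp
    obtain ⟨q1, q2, q3⟩ := hq
    simp only at p1 p2 p3 q1 q2 q3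
    have hx1 : ((max d.a e.a : ℕ) : ℝ) ≤ x := by
      rw [Nat.cast_max]; exact max_le p1 q1
    have hx2 : x ≤ ((min d.b e.b : ℕ) : ℝ) := by
      rw [Nat.cast_min]; exact le_min p2 q2
    obtain ⟨k, k1, k2, k3, k4⟩ := exists_strip h1 hx1 hx2
    have hbK := hd.hbK
    have hkK : k < K := by omega
    -- choose the two curves
    obtain ⟨f, hf⟩ : ∃ f, y = pl K (d.val f) x := by
      rcases p3 with p3 | p3
      · exact ⟨false, by rw [val_false]; exact p3⟩
      · exact ⟨true, by rw [val_true]; exact p3⟩
    obtain ⟨g, hg⟩ : ∃ g, y = pl K (e.val g) x := by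
      rcases q3 with q3 | q3
      · exact ⟨false, by rw [val_false]; exact q3⟩
      · exact ⟨true, by rw [val_true]; exact q3⟩
    have hn0 := distinct_val h2 (k := k) (by omega) (by omega) (by omega) (by omega) (by omega) f g
    have hn1 := distinct_val h2 (k := k + 1) (by omega) (by omega) (by omega) (by omega)
      (by omega) f g
    obtain ⟨c1, c2⟩ := cross_of_eq f g hkK hn0 hn1 k3 k4 (hf.symm.trans hg)
    have hmem : (x, y) ∈ T f g := by
      rw [List.mem_toFinset, List.mem_map]
      refine ⟨k, ?_, by rw [← c2, ← hf]⟩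
      unfold crossList
      rw [List.mem_filter]
      refine ⟨List.mem_range.2 hkK, ?_⟩
      simp only [Bool.and_eq_true, decide_eq_true_eq]
      exact ⟨⟨⟨⟨by omega, by omega⟩, by omega⟩, by omega⟩, c1⟩
    simp only [Finset.coe_union, Set.mem_union, Finset.mem_coe]
    cases f <;> cases g <;> tauto
  refine (Set.encard_le_encard hsub).trans ?_
  rw [Set.encard_coe_eq_coe_finsetCard]
  have c1 := Finset.card_union_le (T false false ∪ T false true ∪ T true false) (T true true)
  have c2 := Finset.card_union_le (T false false ∪ T false true) (T true false)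
  have c3 := Finset.card_union_le (T false false) (T false true)
  have t1 := hT false false
  have t2 := hT false true
  have t3 := hT true false
  have t4 := hT true true
  have : (T false false ∪ T false true ∪ T true false ∪ T true true).card ≤ 2 := by omega
  exact_mod_cast this

end Dk

end Pool.Agent.Work.MP_098314_co
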