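import Mathlib
import Pool.Agent.Work.MP_098314_co.Cross

set_option autoImplicit false

namespace Pool.Agent.Work.MP_098314_co

open Set

/-! ### convex pieces -/

/-- trapezoid over a strip -/
lemma convex_trap (k A B C D : ℝ) :
    Convex ℝ {p : ℝ × ℝ | k ≤ p.1 ∧ p.1 ≤ k + 1 ∧ A * p.1 + B ≤ p.2 ∧ p.2 ≤ C * p.1 + D} := by
  rintro ⟨x, y⟩ ⟨h1, h2, h3, h4⟩ ⟨x', y'⟩ ⟨h1', h2', h3', h4'⟩ s t hs ht hst
  simp only [Prod.smul_mk, smul_eq_mul, Prod.mk_add_mk, mem_ofPred_eq] at *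
  have e : t = 1 - s := by linarith
  subst e
  refine ⟨?_, ?_, ?_, ?_⟩ <;> nlinarith

lemma convex_above (E G : ℝ) : Convex ℝ {p : ℝ × ℝ | E * p.1 + G < p.2} := by
  rintro ⟨x, y⟩ h1 ⟨x', y'⟩ h1' s t hs ht hst
  simp only [Prod.smul_mk, smul_eq_mul, Prod.mk_add_mk, mem_ofPred_eq] at *
  have e : t = 1 - s := by linarith
  subst e
  rcases hs.eq_or_lt with h | h
  · subst h; simp; linarith
  · have := mul_lt_mul_of_pos_left h1 h
    have := mul_le_mul_of_nonneg_left h1'.le ht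
    nlinarith

lemma convex_below (E G : ℝ) : Convex ℝ {p : ℝ × ℝ | p.2 < E * p.1 + G} := by
  rintro ⟨x, y⟩ h1 ⟨x', y'⟩ h1' s t hs ht hst
  simp only [Prod.smul_mk, smul_eq_mul, Prod.mk_add_mk, mem_ofPred_eq] at *
  have e : t = 1 - s := by linarith
  subst e
  rcases hs.eq_or_lt with h | h
  · subst h; simp; linarith
  · have := mul_lt_mul_of_pos_left h1 h
    have := mul_le_mul_of_nonneg_left h1'.le ht
    nlinarith

/-- left of a vertical line, with part of the line; `σ = 1` for above, `σ = -1` for below -/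
lemma convex_left (A v σ : ℝ) :
    Convex ℝ {p : ℝ × ℝ | p.1 ≤ A ∧ (p.1 < A ∨ σ * v < σ * p.2)} := by
  rintro ⟨x, y⟩ ⟨h1, h2⟩ ⟨x', y'⟩ ⟨h1', h2'⟩ s t hs ht hst
  simp only [Prod.smul_mk, smul_eq_mul, Prod.mk_add_mk, mem_ofPred_eq] at *
  have e : t = 1 - s := by linarith
  subst e
  rcases hs.eq_or_lt with h | h
  · subst h; simp only [zero_mul, sub_zero, one_mul, zero_add]; exact ⟨h1', h2'⟩
  rcases ht.eq_or_lt with h' | h'
  · have e : s = 1 := by linarith
    subst e; simp only [one_mul, sub_self, zero_mul, add_zero]; exact ⟨h1, h2⟩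
  refine ⟨by nlinarith, ?_⟩
  rcases h2 with h2 | h2
  · left; nlinarith
  · rcases h2' with h3 | h3
    · left; nlinarith
    · right
      have := mul_lt_mul_of_pos_left h2 h
      have := mul_lt_mul_of_pos_left h3 h'
      nlinarith

lemma convex_right (A v σ : ℝ) :
    Convex ℝ {p : ℝ × ℝ | A ≤ p.1 ∧ (A < p.1 ∨ σ * v < σ * p.2)} := by
  rintro ⟨x, y⟩ ⟨h1, h2⟩ ⟨x', y'⟩ ⟨h1', h2'⟩ s t hs ht hst
  simp only [Prod.smul_mk, smul_eq_mul, Prod.mk_add_mk, mem_ofPred_eq] at *
  have e : t = 1 - s := by linarith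
  subst e
  rcases hs.eq_or_lt with h | h
  · subst h; simp only [zero_mul, sub_zero, one_mul, zero_add]; exact ⟨h1', h2'⟩
  rcases ht.eq_or_lt with h' | h'
  · have e : s = 1 := by linarith
    subst e; simp only [one_mul, sub_self, zero_mul, add_zero]; exact ⟨h1, h2⟩
  refine ⟨by nlinarith, ?_⟩
  rcases h2 with h2 | h2
  · left; nlinarith
  · rcases h2' with h3 | h3
    · left; nlinarith
    · right
      have := mul_lt_mul_of_pos_left h2 h
      have := mul_lt_mul_of_pos_left h3 h'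
      nlinarith

lemma pl_line {K : ℕ} (f : ℕ → ℕ) {k : ℕ} (hk : k < K) : ∃ A B : ℝ, ∀ x : ℝ, (k : ℝ) ≤ x →
    x ≤ k + 1 → pl K f x = A * x + B := by
  refine ⟨(f (k + 1) : ℝ) - f k, (f k : ℝ) - k * ((f (k + 1) : ℝ) - f k), ?_⟩
  intro x h1 h2
  rw [pl_eq f hk h1 h2]
  ring

namespace Dk

/-- the part of `d \ e` over the strip `[k, k+1]` that lies above `e` (or outside its range) -/
def pieceU (K : ℕ) (d e : Dk) (k : ℕ) : Set (ℝ × ℝ) :=
  {p | p ∈ d.set K ∧ (k : ℝ) ≤ p.1 ∧ p.1 ≤ k + 1 ∧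
    (p.1 < e.a ∨ (e.b : ℝ) < p.1 ∨ pl K e.up p.1 < p.2)}

/-- the part of `d \ e` over the strip `[k, k+1]` that lies below `e` (or outside its range) -/
def pieceD (K : ℕ) (d e : Dk) (k : ℕ) : Set (ℝ × ℝ) :=
  {p | p ∈ d.set K ∧ (k : ℝ) ≤ p.1 ∧ p.1 ≤ k + 1 ∧
    (p.1 < e.a ∨ (e.b : ℝ) < p.1 ∨ p.2 < pl K e.lo p.1)}

lemma convex_strip {K : ℕ} {d : Dk} (hd : DiskOK K d.a d.b d.lo d.up) {k : ℕ} (h1 : d.a ≤ k)
    (h2 : k + 1 ≤ d.b) :
    Convex ℝ {p : ℝ × ℝ | p ∈ d.set K ∧ (k : ℝ) ≤ p.1 ∧ p.1 ≤ k + 1} := by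
  have hbK := hd.hbK
  obtain ⟨A, B, hAB⟩ := pl_line (K := K) d.lo (show k < K by omega)
  obtain ⟨C, D, hCD⟩ := pl_line (K := K) d.up (show k < K by omega)
  have h1' : (d.a : ℝ) ≤ k := by exact_mod_cast h1
  have h2' : (k : ℝ) + 1 ≤ d.b := by exact_mod_cast h2
  have : {p : ℝ × ℝ | p ∈ d.set K ∧ (k : ℝ) ≤ p.1 ∧ p.1 ≤ k + 1} =
      {p : ℝ × ℝ | (k : ℝ) ≤ p.1 ∧ p.1 ≤ k + 1 ∧ A * p.1 + B ≤ p.2 ∧ p.2 ≤ C * p.1 + D} := by
    ext ⟨x, y⟩
    simp only [set, shape, mem_ofPred_eq]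
    constructor
    · rintro ⟨⟨a1, a2, a3, a4⟩, a5, a6⟩
      refine ⟨a5, a6, ?_, ?_⟩
      · rw [← hAB x a5 a6]; exact a3
      · rw [← hCD x a5 a6]; exact a4
    · rintro ⟨a5, a6, a3, a4⟩
      refine ⟨⟨by linarith, by linarith, ?_, ?_⟩, a5, a6⟩
      · rw [hAB x a5 a6]; exact a3
      · rw [hCD x a5 a6]; exact a4
  rw [this]
  exact convex_trap _ _ _ _ _

lemma convex_pieceU {K : ℕ} {d e : Dk} (hd : DiskOK K d.a d.b d.lo d.up)
    (he : DiskOK K e.a e.b e.lo e.up) {k : ℕ} (h1 : d.a ≤ k) (h2 : k + 1 ≤ d.b) :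
    Convex ℝ (pieceU K d e k) := by
  have hbK := hd.hbK
  have hs := convex_strip hd h1 h2
  have hae : e.a < e.b := by have := he.hab; omega
  have hae' : (e.a : ℝ) < e.b := by exact_mod_cast hae
  rcases Nat.lt_or_ge k e.a with h3 | h3
  · -- left of `e`
    have h3' : (k : ℝ) + 1 ≤ e.a := by exact_mod_cast h3
    have : pieceU K d e k = {p : ℝ × ℝ | p ∈ d.set K ∧ (k : ℝ) ≤ p.1 ∧ p.1 ≤ k + 1} ∩
        {p : ℝ × ℝ | p.1 ≤ e.a ∧ (p.1 < e.a ∨ 1 * pl K e.up e.a < 1 * p.2)} := by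
      ext ⟨x, y⟩
      simp only [pieceU, mem_ofPred_eq, mem_inter_iff, one_mul]
      constructor
      · rintro ⟨a1, a2, a3, a4⟩
        refine ⟨⟨a1, a2, a3⟩, by linarith, ?_⟩
        rcases lt_or_eq_of_le (show x ≤ e.a by linarith) with h4 | h4
        · exact Or.inl h4
        · right
          rcases a4 with a4 | a4 | a4
          · linarith
          · linarith
          · rw [← h4]; exact a4
      · rintro ⟨⟨a1, a2, a3⟩, a4, a5⟩
        refine ⟨a1, a2, a3, ?_⟩
        rcases lt_or_eq_of_le a4 with h4 | h4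
        · exact Or.inl h4
        · rcases a5 with a5 | a5
          · linarith
          · right; right; rw [h4]; exact a5
    rw [this]
    exact hs.inter (convex_left _ _ _)
  rcases Nat.lt_or_ge k e.b with h4 | h4
  · -- over `e`
    obtain ⟨C, D, hCD⟩ := pl_line (K := K) e.up (show k < K by omega)
    have h3' : (e.a : ℝ) ≤ k := by exact_mod_cast h3
    have h4' : (k : ℝ) + 1 ≤ e.b := by exact_mod_cast h4
    have : pieceU K d e k = {p : ℝ × ℝ | p ∈ d.set K ∧ (k : ℝ) ≤ p.1 ∧ p.1 ≤ k + 1} ∩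
        {p : ℝ × ℝ | C * p.1 + D < p.2} := by
      ext ⟨x, y⟩
      simp only [pieceU, mem_ofPred_eq, mem_inter_iff]
      constructor
      · rintro ⟨a1, a2, a3, a4⟩
        refine ⟨⟨a1, a2, a3⟩, ?_⟩
        rw [← hCD x a2 a3]
        rcases a4 with a4 | a4 | a4
        · linarith
        · linarith
        · exact a4
      · rintro ⟨⟨a1, a2, a3⟩, a4⟩
        refine ⟨a1, a2, a3, Or.inr (Or.inr ?_)⟩
        rw [hCD x a2 a3]; exact a4
    rw [this]
    exact hs.inter (convex_above _ _)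
  · -- right of `e`
    have h4' : (e.b : ℝ) ≤ k := by exact_mod_cast h4
    have : pieceU K d e k = {p : ℝ × ℝ | p ∈ d.set K ∧ (k : ℝ) ≤ p.1 ∧ p.1 ≤ k + 1} ∩
        {p : ℝ × ℝ | (e.b : ℝ) ≤ p.1 ∧ ((e.b : ℝ) < p.1 ∨ 1 * pl K e.up e.b < 1 * p.2)} := by
      ext ⟨x, y⟩
      simp only [pieceU, mem_ofPred_eq, mem_inter_iff, one_mul]
      constructor
      · rintro ⟨a1, a2, a3, a4⟩
        refine ⟨⟨a1, a2, a3⟩, by linarith, ?_⟩
        rcases lt_or_eq_of_le (show (e.b : ℝ) ≤ x by linarith) with h5 | h5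
        · exact Or.inl h5
        · right
          rcases a4 with a4 | a4 | a4
          · linarith
          · linarith
          · rw [h5]; exact a4
      · rintro ⟨⟨a1, a2, a3⟩, a4, a5⟩
        refine ⟨a1, a2, a3, ?_⟩
        rcases lt_or_eq_of_le a4 with h5 | h5
        · exact Or.inr (Or.inl h5)
        · rcases a5 with a5 | a5
          · linarith
          · right; right; rw [← h5]; exact a5
    rw [this]
    exact hs.inter (convex_right _ _ _)

lemma convex_pieceD {K : ℕ} {d e : Dk} (hd : DiskOK K d.a d.b d.lo d.up)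
    (he : DiskOK K e.a e.b e.lo e.up) {k : ℕ} (h1 : d.a ≤ k) (h2 : k + 1 ≤ d.b) :
    Convex ℝ (pieceD K d e k) := by
  have hbK := hd.hbK
  have hs := convex_strip hd h1 h2
  have hae : e.a < e.b := by have := he.hab; omega
  have hae' : (e.a : ℝ) < e.b := by exact_mod_cast hae
  rcases Nat.lt_or_ge k e.a with h3 | h3
  · -- left of `e`
    have h3' : (k : ℝ) + 1 ≤ e.a := by exact_mod_cast h3
    have : pieceD K d e k = {p : ℝ × ℝ | p ∈ d.set K ∧ (k : ℝ) ≤ p.1 ∧ p.1 ≤ k + 1} ∩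
        {p : ℝ × ℝ | p.1 ≤ e.a ∧ (p.1 < e.a ∨ (-1) * pl K e.lo e.a < (-1) * p.2)} := by
      ext ⟨x, y⟩
      simp only [pieceD, mem_ofPred_eq, mem_inter_iff, neg_mul, one_mul, neg_lt_neg_iff]
      constructor
      · rintro ⟨a1, a2, a3, a4⟩
        refine ⟨⟨a1, a2, a3⟩, by linarith, ?_⟩
        rcases lt_or_eq_of_le (show x ≤ e.a by linarith) with h4 | h4
        · exact Or.inl h4
        · right
          rcases a4 with a4 | a4 | a4
          · linarith
          · linarith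
          · rw [← h4]; exact a4
      · rintro ⟨⟨a1, a2, a3⟩, a4, a5⟩
        refine ⟨a1, a2, a3, ?_⟩
        rcases lt_or_eq_of_le a4 with h4 | h4
        · exact Or.inl h4
        · rcases a5 with a5 | a5
          · linarith
          · right; right; rw [h4]; exact a5
    rw [this]
    exact hs.inter (convex_left _ _ _)
  rcases Nat.lt_or_ge k e.b with h4 | h4
  · -- over `e`
    obtain ⟨C, D, hCD⟩ := pl_line (K := K) e.lo (show k < K by omega)
    have h3' : (e.a : ℝ) ≤ k := by exact_mod_cast h3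
    have h4' : (k : ℝ) + 1 ≤ e.b := by exact_mod_cast h4
    have : pieceD K d e k = {p : ℝ × ℝ | p ∈ d.set K ∧ (k : ℝ) ≤ p.1 ∧ p.1 ≤ k + 1} ∩
        {p : ℝ × ℝ | p.2 < C * p.1 + D} := by
      ext ⟨x, y⟩
      simp only [pieceD, mem_ofPred_eq, mem_inter_iff]
      constructor
      · rintro ⟨a1, a2, a3, a4⟩
        refine ⟨⟨a1, a2, a3⟩, ?_⟩
        rw [← hCD x a2 a3]
        rcases a4 with a4 | a4 | a4
        · linarith
        · linarith
        · exact a4
      · rintro ⟨⟨a1, a2, a3⟩, a4⟩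
        refine ⟨a1, a2, a3, Or.inr (Or.inr ?_)⟩
        rw [hCD x a2 a3]; exact a4
    rw [this]
    exact hs.inter (convex_below _ _)
  · -- right of `e`
    have h4' : (e.b : ℝ) ≤ k := by exact_mod_cast h4
    have : pieceD K d e k = {p : ℝ × ℝ | p ∈ d.set K ∧ (k : ℝ) ≤ p.1 ∧ p.1 ≤ k + 1} ∩
        {p : ℝ × ℝ | (e.b : ℝ) ≤ p.1 ∧ ((e.b : ℝ) < p.1 ∨ (-1) * pl K e.lo e.b < (-1) * p.2)} := by
      ext ⟨x, y⟩
      simp only [pieceD, mem_ofPred_eq, mem_inter_iff, neg_mul, one_mul, neg_lt_neg_iff]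
      constructor
      · rintro ⟨a1, a2, a3, a4⟩
        refine ⟨⟨a1, a2, a3⟩, by linarith, ?_⟩
        rcases lt_or_eq_of_le (show (e.b : ℝ) ≤ x by linarith) with h5 | h5
        · exact Or.inl h5
        · right
          rcases a4 with a4 | a4 | a4
          · linarith
          · linarith
          · rw [h5]; exact a4
      · rintro ⟨⟨a1, a2, a3⟩, a4, a5⟩
        refine ⟨a1, a2, a3, ?_⟩
        rcases lt_or_eq_of_le a4 with h5 | h5
        · exact Or.inr (Or.inl h5)
        · rcases a5 with a5 | a5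
          · linarith
          · right; right; rw [← h5]; exact a5
    rw [this]
    exact hs.inter (convex_right _ _ _)

/-! ### the combinatorial check -/

/-- `e` does not live over column `c` -/
def off (e : Dk) (c : ℕ) : Bool := decide (c < e.a) || decide (e.b < c)

/-- the upper level of `d` over column `c` is above `e` or `e` is not there -/
def flU (d e : Dk) (c : ℕ) : Bool := e.off c || decide (e.up c < d.up c)

/-- the lower level of `d` over column `c` is below `e` or `e` is not there -/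
def flD (d e : Dk) (c : ℕ) : Bool := e.off c || decide (d.lo c < e.lo c)

/-- the cyclic list of pieces: the lower pieces from left to right, then the upper pieces from
right to left -/
def piece (K : ℕ) (d e : Dk) (r : ℕ) : Set (ℝ × ℝ) :=
  if r < d.b - d.a then pieceD K d e (d.a + r)
  else pieceU K d e (d.a + (2 * (d.b - d.a) - 1 - r))

/-- consecutive pieces `r`, `r + 1` (cyclically) share a boundary vertex -/
def link (d e : Dk) (r : ℕ) : Bool :=
  if r + 1 < d.b - d.a then flD d e (d.a + r + 1)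
  else if r + 1 = d.b - d.a then e.off d.b
  else if r + 1 < 2 * (d.b - d.a) then flU d e (d.a + (2 * (d.b - d.a) - 1 - r))
  else e.off d.a

/-- the piece `r` is possibly non-empty -/
def nonemp (d e : Dk) (r : ℕ) : Bool :=
  if r < d.b - d.a then flD d e (d.a + r) || flD d e (d.a + r + 1)
  else flU d e (d.a + (2 * (d.b - d.a) - 1 - r)) || flU d e (d.a + (2 * (d.b - d.a) - 1 - r) + 1)

/-- start of the cyclic run -/
def runStart (d e : Dk) : ℕ :=
  ((List.range (2 * (d.b - d.a))).find?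
    (fun r => nonemp d e r &&
      !(link d e ((r + 2 * (d.b - d.a) - 1) % (2 * (d.b - d.a)))))).getD 0

/-- length of the cyclic run -/
def runLen (d e : Dk) : ℕ := ((List.range (2 * (d.b - d.a))).filter (nonemp d e)).length

/-- the check: the non-empty pieces form a run of consecutive linked pieces -/
def diffOK (d e : Dk) : Bool :=
  decide (0 < runLen d e) &&
  (List.range (runLen d e - 1)).all
    (fun m => link d e ((runStart d e + m) % (2 * (d.b - d.a)))) &&
  (List.range (2 * (d.b - d.a))).all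
    (fun r => !(nonemp d e r) ||
      decide ((r + 2 * (d.b - d.a) - runStart d e) % (2 * (d.b - d.a)) < runLen d e)) &&
  decide (runStart d e < 2 * (d.b - d.a)) && nonemp d e (runStart d e)

end Dk

end Pool.Agent.Work.MP_098314_co
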