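import Mathlib
import Pool.Agent.Work.MP_098314_co.Diff

set_option autoImplicit false

namespace Pool.Agent.Work.MP_098314_co

open Set

lemma isPreconnected_chain {X : Type*} [TopologicalSpace X] (P : ℕ → Set X) (n : ℕ)
    (hP : ∀ m, m < n → IsPreconnected (P m))
    (hl : ∀ m, m + 1 < n → (P m ∩ P (m + 1)).Nonempty) :
    IsPreconnected (⋃ m ∈ {m : ℕ | m < n}, P m) := by
  induction n with
  | zero => simpa using isPreconnected_empty
  | succ n ih =>
    have e : (⋃ m ∈ {m : ℕ | m < n + 1}, P m) = (⋃ m ∈ {m : ℕ | m < n}, P m) ∪ P n := by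
      ext x
      simp only [mem_iUnion, mem_ofPred_eq, exists_prop, mem_union]
      constructor
      · rintro ⟨m, hm, hx⟩
        rcases Nat.lt_succ_iff_lt_or_eq.1 hm with h | h
        · exact Or.inl ⟨m, h, hx⟩
        · exact Or.inr (h ▸ hx)
      · rintro (⟨m, hm, hx⟩ | hx)
        · exact ⟨m, by omega, hx⟩
        · exact ⟨n, by omega, hx⟩
    rw [e]
    have ih' := ih (fun m hm => hP m (by omega)) (fun m hm => hl m (by omega))
    rcases Nat.eq_zero_or_pos n with h0 | h0
    · subst h0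
      simp only [Nat.not_lt_zero, ofPred_false, mem_empty_iff_false, iUnion_of_empty, iUnion_empty,
        empty_union]
      exact hP 0 (by omega)
    · obtain ⟨x, hx1, hx2⟩ := hl (n - 1) (by omega)
      rw [show n - 1 + 1 = n by omega] at hx2
      refine IsPreconnected.union x ?_ hx2 ih' (hP n (by omega))
      simp only [mem_iUnion, mem_ofPred_eq, exists_prop]
      exact ⟨n - 1, by omega, hx1⟩

namespace Dk

variable {K : ℕ} {d e : Dk}

lemma off_true {e : Dk} {c : ℕ} (h : e.off c = true) : (c : ℝ) < e.a ∨ (e.b : ℝ) < c := by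
  unfold off at h
  rw [Bool.or_eq_true, decide_eq_true_eq, decide_eq_true_eq] at h
  rcases h with h | h
  · left; exact_mod_cast h
  · right; exact_mod_cast h

lemma off_false {e : Dk} {c : ℕ} (h : e.off c = false) : e.a ≤ c ∧ c ≤ e.b := by
  unfold off at h
  rw [Bool.or_eq_false_iff, decide_eq_false_iff_not, decide_eq_false_iff_not] at h
  omega

lemma vertex_mem (hd : DiskOK K d.a d.b d.lo d.up) {c : ℕ} (h1 : d.a ≤ c) (h2 : c ≤ d.b)
    (f : Bool) : ((c : ℝ), (d.val f c : ℝ)) ∈ d.set K := by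
  have hab := hd.hab
  have hbK := hd.hbK
  have h1' : (d.a : ℝ) ≤ c := by exact_mod_cast h1
  have h2' : (c : ℝ) ≤ d.b := by exact_mod_cast h2
  have hle := hd.nice.le h1' h2'
  have e1 := pl_nat (K := K) d.lo (k := c) (by omega) (by omega)
  have e2 := pl_nat (K := K) d.up (k := c) (by omega) (by omega)
  refine ⟨h1', h2', ?_, ?_⟩
  · simp only
    rw [e1]; rw [e1, e2] at hle
    cases f
    · simp [val]
    · simpa [val] using hle
  · simp only
    rw [e2]; rw [e1, e2] at hle
    cases f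
    · simpa [val] using hle
    · simp [val]

lemma vertexD_mem_piece (hd : DiskOK K d.a d.b d.lo d.up)
    {c k : ℕ} (h1 : d.a ≤ k) (h2 : k + 1 ≤ d.b) (hc : c = k ∨ c = k + 1)
    (hf : flD d e c = true) : ((c : ℝ), (d.lo c : ℝ)) ∈ pieceD K d e k := by
  have hbK := hd.hbK
  have hm := vertex_mem hd (c := c) (by omega) (by omega) false
  rw [val_false] at hm
  refine ⟨hm, ?_, ?_, ?_⟩
  · simp only; exact_mod_cast (show k ≤ c by omega)
  · simp only; exact_mod_cast (show c ≤ k + 1 by omega)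
  · simp only
    unfold flD at hf
    rw [Bool.or_eq_true] at hf
    rcases hf with h | h
    · rcases off_true h with h | h
      · exact Or.inl h
      · exact Or.inr (Or.inl h)
    · rw [decide_eq_true_eq] at h
      right; right
      rw [pl_nat (K := K) e.lo (k := c) (by omega) (by omega)]
      exact_mod_cast h

lemma vertexU_mem_piece (hd : DiskOK K d.a d.b d.lo d.up)
    {c k : ℕ} (h1 : d.a ≤ k) (h2 : k + 1 ≤ d.b) (hc : c = k ∨ c = k + 1)
    (hf : flU d e c = true) : ((c : ℝ), (d.up c : ℝ)) ∈ pieceU K d e k := by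
  have hbK := hd.hbK
  have hm := vertex_mem hd (c := c) (by omega) (by omega) true
  rw [val_true] at hm
  refine ⟨hm, ?_, ?_, ?_⟩
  · simp only; exact_mod_cast (show k ≤ c by omega)
  · simp only; exact_mod_cast (show c ≤ k + 1 by omega)
  · simp only
    unfold flU at hf
    rw [Bool.or_eq_true] at hf
    rcases hf with h | h
    · rcases off_true h with h | h
      · exact Or.inl h
      · exact Or.inr (Or.inl h)
    · rw [decide_eq_true_eq] at h
      right; right
      rw [pl_nat (K := K) e.up (k := c) (by omega) (by omega)]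
      exact_mod_cast h

lemma pl_le_pl {f g : ℕ → ℕ} {k : ℕ} (hk : k < K) (h0 : f k ≤ g k) (h1 : f (k + 1) ≤ g (k + 1))
    {x : ℝ} (hx : (k : ℝ) ≤ x) (hx' : x ≤ k + 1) : pl K f x ≤ pl K g x := by
  rw [pl_eq f hk hx hx', pl_eq g hk hx hx']
  have h0' : (f k : ℝ) ≤ g k := by exact_mod_cast h0
  have h1' : (f (k + 1) : ℝ) ≤ g (k + 1) := by exact_mod_cast h1
  nlinarith

lemma piece_isPreconnected (hd : DiskOK K d.a d.b d.lo d.up) (he : DiskOK K e.a e.b e.lo e.up)
    {r : ℕ} (hr : r < 2 * (d.b - d.a)) : IsPreconnected (piece K d e r) := by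
  have hab := hd.hab
  unfold piece
  split_ifs with h
  · exact (convex_pieceD hd he (by omega) (by omega)).isPreconnected
  · exact (convex_pieceU hd he (by omega) (by omega)).isPreconnected

lemma piece_empty (hd : DiskOK K d.a d.b d.lo d.up)
    {r : ℕ} (hr : r < 2 * (d.b - d.a)) (hn : nonemp d e r = false) : piece K d e r = ∅ := by
  have hab := hd.hab
  have hbK := hd.hbK
  unfold nonemp at hn
  unfold piece
  split_ifs at hn ⊢ with h
  · rw [Bool.or_eq_false_iff] at hn
    obtain ⟨h1, h2⟩ := hn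
    unfold flD at h1 h2
    rw [Bool.or_eq_false_iff, decide_eq_false_iff_not] at h1 h2
    have o1 := off_false h1.1
    have o2 := off_false h2.1
    rw [Set.eq_empty_iff_forall_notMem]
    rintro ⟨x, y⟩ ⟨p1, p2, p3, p4⟩
    simp only at p2 p3 p4
    have hle := pl_le_pl (K := K) (f := e.lo) (g := d.lo) (k := d.a + r) (by omega)
      (not_lt.1 h1.2) (not_lt.1 h2.2) p2 p3
    have h3 : pl K d.lo x ≤ y := p1.2.2.1
    have o1' : (e.a : ℝ) ≤ ((d.a + r : ℕ) : ℝ) := by exact_mod_cast o1.1
    have o2' : ((d.a + r : ℕ) : ℝ) + 1 ≤ e.b := by exact_mod_cast o2.2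
    rcases p4 with p4 | p4 | p4 <;> linarith
  · rw [Bool.or_eq_false_iff] at hn
    obtain ⟨h1, h2⟩ := hn
    unfold flU at h1 h2
    rw [Bool.or_eq_false_iff, decide_eq_false_iff_not] at h1 h2
    set k := d.a + (2 * (d.b - d.a) - 1 - r) with hk
    have o1 := off_false h1.1
    have o2 := off_false h2.1
    rw [Set.eq_empty_iff_forall_notMem]
    rintro ⟨x, y⟩ ⟨p1, p2, p3, p4⟩
    simp only at p2 p3 p4
    have hle := pl_le_pl (K := K) (f := d.up) (g := e.up) (k := k) (by omega)
      (not_lt.1 h1.2) (not_lt.1 h2.2) p2 p3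
    have h3 : y ≤ pl K d.up x := p1.2.2.2
    have o1' : (e.a : ℝ) ≤ (k : ℝ) := by exact_mod_cast o1.1
    have o2' : (k : ℝ) + 1 ≤ e.b := by exact_mod_cast o2.2
    rcases p4 with p4 | p4 | p4 <;> linarith

lemma piece_nonempty (hd : DiskOK K d.a d.b d.lo d.up)
    {r : ℕ} (hr : r < 2 * (d.b - d.a)) (hn : nonemp d e r = true) : (piece K d e r).Nonempty := by
  have hab := hd.hab
  unfold nonemp at hn
  unfold piece
  split_ifs at hn ⊢ with h
  · rw [Bool.or_eq_true] at hn
    rcases hn with hn | hn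
    · exact ⟨_, vertexD_mem_piece hd (by omega) (by omega) (Or.inl rfl) hn⟩
    · exact ⟨_, vertexD_mem_piece hd (by omega) (by omega) (Or.inr rfl) hn⟩
  · rw [Bool.or_eq_true] at hn
    rcases hn with hn | hn
    · exact ⟨_, vertexU_mem_piece hd (by omega) (by omega) (Or.inl rfl) hn⟩
    · exact ⟨_, vertexU_mem_piece hd (by omega) (by omega) (Or.inr rfl) hn⟩

lemma link_inter (hd : DiskOK K d.a d.b d.lo d.up)
    {r : ℕ} (hr : r < 2 * (d.b - d.a)) (hn : link d e r = true) :
    (piece K d e r ∩ piece K d e ((r + 1) % (2 * (d.b - d.a)))).Nonempty := by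
  have hab := hd.hab
  unfold link at hn
  split_ifs at hn with h1 h2 h3
  · -- lower boundary
    rw [Nat.mod_eq_of_lt (by omega)]
    unfold piece
    rw [if_pos (by omega), if_pos h1]
    refine ⟨((d.a + r + 1 : ℕ), (d.lo (d.a + r + 1) : ℝ)), ?_, ?_⟩
    · exact vertexD_mem_piece hd (by omega) (by omega) (Or.inr rfl) hn
    · exact vertexD_mem_piece hd (by omega) (by omega) (Or.inl (by omega)) hn
  · -- right end
    rw [Nat.mod_eq_of_lt (by omega)]
    unfold piece
    rw [if_pos (by omega), if_neg (by omega)]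
    have hD : flD d e d.b = true := by unfold flD; rw [hn]; rfl
    have hU : flU d e d.b = true := by unfold flU; rw [hn]; rfl
    have e1 : d.a + r = d.b - 1 := by omega
    have e2 : d.a + (2 * (d.b - d.a) - 1 - (r + 1)) = d.b - 1 := by omega
    rw [e1, e2]
    refine ⟨((d.b : ℕ), (d.lo d.b : ℝ)), ?_, ?_⟩
    · exact vertexD_mem_piece hd (by omega) (by omega) (Or.inr (by omega)) hD
    · rw [hd.hb]
      exact vertexU_mem_piece hd (by omega) (by omega) (Or.inr (by omega)) hU
  · -- upper boundary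
    rw [Nat.mod_eq_of_lt (by omega)]
    unfold piece
    rw [if_neg (by omega), if_neg (by omega)]
    refine ⟨((d.a + (2 * (d.b - d.a) - 1 - r) : ℕ),
      (d.up (d.a + (2 * (d.b - d.a) - 1 - r)) : ℝ)), ?_, ?_⟩
    · exact vertexU_mem_piece hd (by omega) (by omega) (Or.inl rfl) hn
    · exact vertexU_mem_piece hd (by omega) (by omega) (Or.inr (by omega)) hn
  · -- left end
    have e0 : r + 1 = 2 * (d.b - d.a) := by omega
    rw [e0, Nat.mod_self]
    unfold piece
    rw [if_neg (by omega), if_pos (by omega)]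
    have hD : flD d e d.a = true := by unfold flD; rw [hn]; rfl
    have hU : flU d e d.a = true := by unfold flU; rw [hn]; rfl
    have e2 : d.a + (2 * (d.b - d.a) - 1 - r) = d.a := by omega
    rw [e2]
    refine ⟨((d.a : ℕ), (d.up d.a : ℝ)), ?_, ?_⟩
    · exact vertexU_mem_piece hd (by omega) (by omega) (Or.inl rfl) hU
    · rw [← hd.ha]
      exact vertexD_mem_piece hd (by omega) (by omega) (Or.inl (by omega)) hD

lemma pieceU_subset {k : ℕ} : pieceU K d e k ⊆ d.set K \ e.set K := by
  rintro ⟨x, y⟩ ⟨p1, p2, p3, p4⟩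
  refine ⟨p1, ?_⟩
  rintro ⟨q1, q2, q3, q4⟩
  simp only at p4 q1 q2 q3 q4
  rcases p4 with p4 | p4 | p4 <;> linarith

lemma pieceD_subset {k : ℕ} : pieceD K d e k ⊆ d.set K \ e.set K := by
  rintro ⟨x, y⟩ ⟨p1, p2, p3, p4⟩
  refine ⟨p1, ?_⟩
  rintro ⟨q1, q2, q3, q4⟩
  simp only at p4 q1 q2 q3 q4
  rcases p4 with p4 | p4 | p4 <;> linarith

lemma diff_subset (hd : DiskOK K d.a d.b d.lo d.up) {p : ℝ × ℝ} (hp : p ∈ d.set K \ e.set K) :
    ∃ r, r < 2 * (d.b - d.a) ∧ p ∈ piece K d e r := by
  have hab := hd.hab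
  obtain ⟨x, y⟩ := p
  obtain ⟨hp1, hp2⟩ := hp
  have hp1' := hp1
  obtain ⟨h1, h2, h3, h4⟩ := hp1
  simp only at h1 h2 h3 h4
  obtain ⟨k, k1, k2, k3, k4⟩ := exists_strip (show d.a < d.b by omega) h1 h2
  by_cases hD : x < e.a ∨ (e.b : ℝ) < x ∨ y < pl K e.lo x
  · refine ⟨k - d.a, by omega, ?_⟩
    unfold piece
    rw [if_pos (by omega), show d.a + (k - d.a) = k by omega]
    exact ⟨hp1', k3, k4, hD⟩
  · rw [not_or, not_or] at hD
    refine ⟨2 * (d.b - d.a) - 1 - (k - d.a), by omega, ?_⟩
    unfold piece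
    rw [if_neg (by omega), show d.a + (2 * (d.b - d.a) - 1 - (2 * (d.b - d.a) - 1 - (k - d.a))) = k
      by omega]
    refine ⟨hp1', k3, k4, Or.inr (Or.inr ?_)⟩
    simp only
    by_contra hc
    exact hp2 ⟨not_lt.1 hD.1, not_lt.1 hD.2.1, not_lt.1 hD.2.2, not_lt.1 hc⟩

theorem isConnected_diff (hd : DiskOK K d.a d.b d.lo d.up) (he : DiskOK K e.a e.b e.lo e.up)
    (h : diffOK d e = true) : IsConnected (d.set K \ e.set K) := by
  have hab := hd.hab
  unfold diffOK at h
  simp only [Bool.and_eq_true, decide_eq_true_eq, List.all_eq_true, List.mem_range,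
    Bool.or_eq_true, Bool.not_eq_true'] at h
  obtain ⟨⟨⟨⟨h1, h2⟩, h3⟩, h4⟩, h5⟩ := h
  set N := 2 * (d.b - d.a) with hN
  set s := runStart d e with hs
  set n := runLen d e with hn
  have hN0 : 0 < N := by omega
  have heq : d.set K \ e.set K = ⋃ m ∈ {m : ℕ | m < n}, piece K d e ((s + m) % N) := by
    apply Subset.antisymm
    · intro p hp
      obtain ⟨r, hr, hpr⟩ := diff_subset (e := e) hd hp
      simp only [mem_iUnion, mem_ofPred_eq, exists_prop]
      have hne : nonemp d e r = true := by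
        by_contra hc
        rw [Bool.not_eq_true] at hc
        rw [piece_empty hd hr hc] at hpr
        exact hpr
      rcases h3 r hr with h6 | h6
      · rw [h6] at hne; exact absurd hne (by simp)
      · refine ⟨(r + N - s) % N, h6, ?_⟩
        have : (s + (r + N - s) % N) % N = r := by
          rw [Nat.add_mod_mod, show s + (r + N - s) = r + N by omega, Nat.add_mod_right,
            Nat.mod_eq_of_lt hr]
        rw [this]; exact hpr
    · intro p hp
      simp only [mem_iUnion, mem_ofPred_eq, exists_prop] at hp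
      obtain ⟨m, -, hm⟩ := hp
      unfold piece at hm
      split_ifs at hm
      · exact pieceD_subset hm
      · exact pieceU_subset hm
  constructor
  · obtain ⟨p, hp⟩ := piece_nonempty hd h4 h5
    refine ⟨p, ?_⟩
    rw [heq]
    simp only [mem_iUnion, mem_ofPred_eq, exists_prop]
    exact ⟨0, h1, by rw [add_zero, Nat.mod_eq_of_lt h4]; exact hp⟩
  · rw [heq]
    apply isPreconnected_chain
    · intro m _
      exact piece_isPreconnected hd he (Nat.mod_lt _ hN0)
    · intro m hm
      have h6 := link_inter hd (Nat.mod_lt (s + m) hN0) (h2 m (by omega))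
      rw [← hN, Nat.mod_add_mod] at h6
      exact h6

end Dk

end Pool.Agent.Work.MP_098314_co
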