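import Mathlib
import Pool.Agent.Work.MP_098314_co.Diff2

set_option autoImplicit false

namespace Pool.Agent.Work.MP_098314_co

open Set

namespace Dk

/-- the disk lives over the whole strip `[k, k+1]` -/
def act (d : Dk) (k : ℕ) : Bool := decide (d.a ≤ k) && decide (k < d.b)

/-- if `e` is below `d` over column `s`, then also over column `t` -/
def sepImp (d e : Dk) (s t : ℕ) : Bool := !(decide (e.up s < d.lo s)) || decide (e.up t < d.lo t)

/-- the grid point `(c, y)` lies in the disk -/
def cell (d : Dk) (c y : ℕ) : Bool :=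
  decide (d.a ≤ c) && decide (c ≤ d.b) && decide (d.lo c ≤ y) && decide (y ≤ d.up c)

end Dk

/-- check of one strip: intersecting pairs over the strip intersect over the column `s` -/
def stripOK {n : ℕ} (D : Fin n → Dk) (k s t : ℕ) : Bool :=
  (List.finRange n).all (fun i => !((D i).act k) ||
    (List.finRange n).all (fun j => !((D j).act k) || Dk.sepImp (D i) (D j) s t))

/-- check of one column: each cell is contained in a mask of the list `M` -/
def columnOK {n : ℕ} (D : Fin n → Dk) (M : List ℕ) (c : ℕ) : Bool :=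
  (List.finRange n).all (fun j => M.any (fun m =>
    (List.finRange n).all (fun i => !((D i).cell c ((D j).lo c)) || m.testBit i)))

/-- the whole check for the cells -/
def cellsOK {n : ℕ} (K : ℕ) (D : Fin n → Dk) (M : List ℕ) : Bool :=
  (List.range K).all (fun k => stripOK D k k (k + 1) || stripOK D k (k + 1) k) &&
  (List.range (K + 1)).all (fun c => columnOK D M c)

/-- no `k` masks from `M`, together with `u`, cover all of `0, …, n - 1`: branch over the masks
containing the first bit missing in `u` -/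
def noCover (M : List ℕ) (n : ℕ) : ℕ → ℕ → Bool
  | 0, u => ((List.range n).find? (fun i => !(u.testBit i))).isSome
  | k + 1, u => match (List.range n).find? (fun i => !(u.testBit i)) with
    | none => false
    | some i => M.all (fun m => !(m.testBit i) || noCover M n k (u ||| m))

lemma noCover_fold {M : List ℕ} {n : ℕ} : ∀ (k : ℕ) (l : List ℕ) (u : ℕ),
    noCover M n k u = true → l.length ≤ k → (∀ m ∈ l, m ∈ M) →
    ∃ i, i < n ∧ u.testBit i = false ∧ ∀ m ∈ l, m.testBit i = false := by
  intro k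
  induction k with
  | zero =>
    intro l u h hk _
    have hl : l = [] := by
      cases l with
      | nil => rfl
      | cons a l => simp at hk
    subst hl
    rw [noCover, Option.isSome_iff_exists] at h
    obtain ⟨i, hi⟩ := h
    have h1 := List.find?_some hi
    have h2 := List.mem_of_find?_eq_some hi
    exact ⟨i, List.mem_range.1 h2, by simpa using h1, by simp⟩
  | succ k ih =>
    intro l u h hk hM
    rw [noCover] at h
    split at h
    · exact absurd h (by simp)
    · rename_i i hi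
      have h1 := List.find?_some hi
      have h2 := List.mem_of_find?_eq_some hi
      by_cases hc : ∀ m ∈ l, m.testBit i = false
      · exact ⟨i, List.mem_range.1 h2, by simpa using h1, hc⟩
      · push Not at hc
        obtain ⟨m, hm, hmi⟩ := hc
        rw [ne_eq, Bool.not_eq_false] at hmi
        rw [List.all_eq_true] at h
        have h3 := h m (hM m hm)
        rw [hmi, Bool.not_true, Bool.false_or] at h3
        have hlen : (l.erase m).length ≤ k := by
          rw [List.length_erase_of_mem hm]; omega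
        obtain ⟨j, hj1, hj2, hj3⟩ := ih (l.erase m) (u ||| m) h3 hlen
          (fun x hx => hM x (List.mem_of_mem_erase hx))
        rw [Nat.testBit_or, Bool.or_eq_false_iff] at hj2
        refine ⟨j, hj1, hj2.1, ?_⟩
        intro x hx
        by_cases hxm : x = m
        · rw [hxm]; exact hj2.2
        · exact hj3 x ((List.mem_erase_of_ne hxm).2 hx)

section

variable {n K : ℕ} {D : Fin n → Dk} {M : List ℕ}

lemma act_of_mem {d : Dk} {k : ℕ} {x y : ℝ} (h : (x, y) ∈ d.set K) (h1 : (k : ℝ) < x)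
    (h2 : x < k + 1) : d.a ≤ k ∧ k < d.b := by
  obtain ⟨h3, h4, -, -⟩ := h
  simp only at h3 h4
  constructor
  · have : (d.a : ℝ) < ((k + 1 : ℕ) : ℝ) := by push_cast; linarith
    have := Nat.cast_lt.1 this
    omega
  · have : (k : ℝ) < d.b := by linarith
    exact_mod_cast this

lemma pl_lt_pl {f g : ℕ → ℕ} {k : ℕ} (hk : k < K) (h0 : f k < g k) (h1 : f (k + 1) < g (k + 1))
    {x : ℝ} (hx : (k : ℝ) ≤ x) (hx' : x ≤ k + 1) : pl K f x < pl K g x := by
  rw [pl_eq f hk hx hx', pl_eq g hk hx hx']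
  have h0' : (f k : ℝ) < g k := by exact_mod_cast h0
  have h1' : (f (k + 1) : ℝ) < g (k + 1) := by exact_mod_cast h1
  rcases hx.eq_or_lt with h | h
  · rw [← h]; simpa using h0'
  · have h2 : 0 < (x - k) * ((g (k + 1) : ℝ) - f (k + 1)) := mul_pos (by linarith) (by linarith)
    have h3 : 0 ≤ (k + 1 - x) * ((g k : ℝ) - f k) := mul_nonneg (by linarith) (by linarith)
    nlinarith

/-- a common column point gives a mask -/
lemma mask_of_column {c : ℕ} (hc : columnOK D M c = true) {S : Finset (Fin n)}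
    (hne : S.Nonempty) (ha : ∀ i ∈ S, (D i).a ≤ c ∧ c ≤ (D i).b)
    (hS : ∀ i ∈ S, ∀ j ∈ S, (D j).lo c ≤ (D i).up c) :
    ∃ m ∈ M, ∀ i ∈ S, m.testBit i = true := by
  obtain ⟨j, hj, hmax⟩ := Finset.exists_max_image S (fun i => (D i).lo c) hne
  unfold columnOK at hc
  rw [List.all_eq_true] at hc
  have h1 := hc j (List.mem_finRange j)
  rw [List.any_eq_true] at h1
  obtain ⟨m, hm, h2⟩ := h1
  refine ⟨m, hm, ?_⟩
  intro i hi
  rw [List.all_eq_true] at h2
  have h3 := h2 i (List.mem_finRange i)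
  have h4 : (D i).cell c ((D j).lo c) = true := by
    unfold Dk.cell
    simp only [Bool.and_eq_true, decide_eq_true_eq]
    exact ⟨⟨⟨(ha i hi).1, (ha i hi).2⟩, hmax i hi⟩, hS i hi j hj⟩
  rw [h4] at h3
  simpa using h3

lemma levels_at_nat {d : Dk} (hK : 0 < K) {c : ℕ} (hc : c ≤ K) {y : ℝ}
    (h : ((c : ℝ), y) ∈ d.set K) : d.a ≤ c ∧ c ≤ d.b ∧ (d.lo c : ℝ) ≤ y ∧ y ≤ d.up c := by
  obtain ⟨h1, h2, h3, h4⟩ := h
  simp only at h1 h2 h3 h4
  rw [pl_nat _ hK hc] at h3 h4
  exact ⟨by exact_mod_cast h1, by exact_mod_cast h2, h3, h4⟩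

/-- every point of the plane is covered by a mask of `M` -/
theorem exists_mask (hK : 0 < K) (hD : ∀ i, (D i).b ≤ K) (hM : M ≠ [])
    (h : cellsOK K D M = true) (p : ℝ × ℝ) :
    ∃ m ∈ M, ∀ i : Fin n, p ∈ (D i).set K → m.testBit i = true := by
  classical
  unfold cellsOK at h
  simp only [Bool.and_eq_true, List.all_eq_true, List.mem_range, Bool.or_eq_true] at h
  obtain ⟨hstrip, hcol⟩ := h
  set S : Finset (Fin n) := Finset.univ.filter (fun i => p ∈ (D i).set K) with hS
  have hmem : ∀ i, i ∈ S ↔ p ∈ (D i).set K := by intro i; simp [hS]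
  rcases S.eq_empty_or_nonempty with h0 | hne
  · obtain ⟨m, hm⟩ := List.exists_mem_of_ne_nil M hM
    refine ⟨m, hm, ?_⟩
    intro i hi
    rw [← hmem, h0] at hi
    simp at hi
  suffices hs : ∃ m ∈ M, ∀ i ∈ S, m.testBit i = true by
    obtain ⟨m, hm, h1⟩ := hs
    exact ⟨m, hm, fun i hi => h1 i ((hmem i).2 hi)⟩
  obtain ⟨i0, hi0⟩ := hne
  obtain ⟨x, y⟩ := p
  have hp0 := (hmem i0).1 hi0
  have hx1 : ((0 : ℕ) : ℝ) ≤ x := by
    have := hp0.1
    simp only at this
    have h2 : (0 : ℝ) ≤ (D i0).a := Nat.cast_nonneg _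
    push_cast
    linarith
  have hx2 : x ≤ (K : ℝ) := by
    have := hp0.2.1
    simp only at this
    have h2 : ((D i0).b : ℝ) ≤ K := by exact_mod_cast hD i0
    linarith
  obtain ⟨k, -, k2, k3, k4⟩ := exists_strip hK hx1 hx2
  have hcolumn : ∀ c : ℕ, c ≤ K → x = c → ∃ m ∈ M, ∀ i ∈ S, m.testBit i = true := by
    intro c hc hxc
    subst hxc
    have hlev : ∀ i ∈ S, (D i).a ≤ c ∧ c ≤ (D i).b ∧ ((D i).lo c : ℝ) ≤ y ∧ y ≤ (D i).up c :=
      fun i hi => levels_at_nat hK hc ((hmem i).1 hi)
    apply mask_of_column (hcol c (by omega)) ⟨i0, hi0⟩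
    · intro i hi
      exact ⟨(hlev i hi).1, (hlev i hi).2.1⟩
    · intro i hi j hj
      have h1 := (hlev j hj).2.2.1
      have h2 := (hlev i hi).2.2.2
      exact_mod_cast h1.trans h2
  rcases k3.eq_or_lt with h3 | h3
  · exact hcolumn k (by omega) h3.symm
  rcases k4.eq_or_lt with h4 | h4
  · exact hcolumn (k + 1) k2 (by rw [h4]; push_cast; ring)
  -- open strip
  have hact : ∀ i ∈ S, (D i).a ≤ k ∧ k < (D i).b := fun i hi => act_of_mem ((hmem i).1 hi) h3 h4
  have hgen : ∀ s t : ℕ, (s = k ∧ t = k + 1) ∨ (s = k + 1 ∧ t = k) →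
      stripOK D k s t = true → ∃ m ∈ M, ∀ i ∈ S, m.testBit i = true := by
    intro s t hst hok
    apply mask_of_column (hcol s (by omega)) ⟨i0, hi0⟩
    · intro i hi
      have := hact i hi
      omega
    · intro i hi j hj
      by_contra hc
      rw [not_le] at hc
      -- `(D i).up s < (D j).lo s`
      unfold stripOK at hok
      rw [List.all_eq_true] at hok
      have h5 := hok j (List.mem_finRange j)
      have a1 : (D j).act k = true := by
        unfold Dk.act; simp [hact j hj]
      have a2 : (D i).act k = true := by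
        unfold Dk.act; simp [hact i hi]
      rw [a1, Bool.not_true, Bool.false_or, List.all_eq_true] at h5
      have h6 := h5 i (List.mem_finRange i)
      rw [a2, Bool.not_true, Bool.false_or] at h6
      unfold Dk.sepImp at h6
      simp only [hc, decide_true, Bool.not_true, Bool.false_or, decide_eq_true_eq] at h6
      have h7 : (D i).up k < (D j).lo k ∧ (D i).up (k + 1) < (D j).lo (k + 1) := by
        rcases hst with ⟨rfl, rfl⟩ | ⟨rfl, rfl⟩
        · exact ⟨hc, h6⟩
        · exact ⟨h6, hc⟩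
      have h8 := pl_lt_pl (K := K) (f := (D i).up) (g := (D j).lo) (k := k) (by omega) h7.1 h7.2
        k3 k4
      have h9 := ((hmem i).1 hi).2.2.2
      have h10 := ((hmem j).1 hj).2.2.1
      simp only at h9 h10
      linarith
  rcases hstrip k (by omega) with h5 | h5
  · exact hgen k (k + 1) (Or.inl ⟨rfl, rfl⟩) h5
  · exact hgen (k + 1) k (Or.inr ⟨rfl, rfl⟩) h5

/-- the family cannot be pierced by `q` points -/
theorem not_pierced {q : ℕ} (hK : 0 < K) (hD : ∀ i, (D i).b ≤ K) (hM : M ≠ [])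
    (h : cellsOK K D M = true)
    (hc : noCover M n q 0 = true) (P : Finset (ℝ × ℝ)) (hP : P.card ≤ q) :
    ∃ i : Fin n, ∀ p ∈ P, p ∉ (D i).set K := by
  classical
  choose f hf1 hf2 using exists_mask hK hD hM h
  obtain ⟨i, hi, -, h3⟩ := noCover_fold (M := M) (n := n) q (P.toList.map f) 0 hc
    (by rw [List.length_map, Finset.length_toList]; exact hP)
    (by
      intro m hm
      rw [List.mem_map] at hm
      obtain ⟨p, -, rfl⟩ := hm
      exact hf1 p)
  refine ⟨⟨i, hi⟩, fun p hp hp2 => ?_⟩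
  have h1 := h3 (f p) (List.mem_map_of_mem (Finset.mem_toList.2 hp))
  have h2 := hf2 p ⟨i, hi⟩ hp2
  rw [h1] at h2
  exact absurd h2 (by simp)

end

/-- two disks have a common point -/
def meetOK (K : ℕ) (d e : Dk) : Bool :=
  (List.range (K + 1)).any (fun c => decide (d.a ≤ c) && decide (e.a ≤ c) && decide (c ≤ d.b) &&
    decide (c ≤ e.b) && decide (d.lo c ≤ e.up c) && decide (e.lo c ≤ d.up c))

lemma inter_nonempty {K : ℕ} {d e : Dk} (hd : DiskOK K d.a d.b d.lo d.up)
    (he : DiskOK K e.a e.b e.lo e.up) (h : meetOK K d e = true) :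
    (d.set K ∩ e.set K).Nonempty := by
  unfold meetOK at h
  simp only [List.any_eq_true, List.mem_range, Bool.and_eq_true, decide_eq_true_eq] at h
  obtain ⟨c, hc, ⟨⟨⟨⟨h1, h2⟩, h3⟩, h4⟩, h5⟩, h6⟩ := h
  have hab := hd.hab
  have hbK := hd.hbK
  have hd1 := Dk.vertex_mem hd h1 h3 false
  have hd2 := Dk.vertex_mem hd h1 h3 true
  have he1 := Dk.vertex_mem he h2 h4 false
  have he2 := Dk.vertex_mem he h2 h4 true
  rw [Dk.val_false] at hd1 he1
  rw [Dk.val_true] at hd2 he2
  have ld := hd1.2.2.2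
  have le := he1.2.2.2
  have ed := pl_nat (K := K) d.lo (k := c) (by omega) (by omega)
  have ed' := pl_nat (K := K) d.up (k := c) (by omega) (by omega)
  have ee := pl_nat (K := K) e.lo (k := c) (by omega) (by omega)
  have ee' := pl_nat (K := K) e.up (k := c) (by omega) (by omega)
  simp only at ld le
  rw [ed'] at ld
  rw [ee'] at le
  have h5' : (d.lo c : ℝ) ≤ e.up c := by exact_mod_cast h5
  have h6' : (e.lo c : ℝ) ≤ d.up c := by exact_mod_cast h6
  rcases le_total (d.lo c : ℝ) (e.lo c) with h7 | h7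
  · refine ⟨((c : ℝ), (e.lo c : ℝ)), ⟨hd1.1, hd1.2.1, ?_, ?_⟩, he1⟩
    · simp only; rw [ed]; exact h7
    · simp only; rw [ed']; exact h6'
  · refine ⟨((c : ℝ), (d.lo c : ℝ)), hd1, ⟨he1.1, he1.2.1, ?_, ?_⟩⟩
    · simp only; rw [ee]; exact h7
    · simp only; rw [ee']; exact h5'

/-- Bool check of the conditions on one disk -/
def diskOK (K : ℕ) (d : Dk) : Bool :=
  decide (d.a + 2 ≤ d.b) && decide (d.b ≤ K) && decide (d.lo d.a = d.up d.a) &&
    decide (d.lo d.b = d.up d.b) &&
    (List.range K).all (fun k => !(decide (d.a < k) && decide (k < d.b)) ||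
      decide (d.lo k < d.up k))

lemma diskOK_spec {K : ℕ} {d : Dk} (h : diskOK K d = true) : DiskOK K d.a d.b d.lo d.up := by
  unfold diskOK at h
  simp only [Bool.and_eq_true, decide_eq_true_eq, List.all_eq_true, List.mem_range,
    Bool.or_eq_true, Bool.not_eq_true', Bool.and_eq_false_iff, decide_eq_false_iff_not] at h
  obtain ⟨⟨⟨⟨h1, h2⟩, h3⟩, h4⟩, h5⟩ := h
  refine ⟨h1, h2, h3, h4, ?_⟩
  intro k hk1 hk2
  rcases h5 k (by omega) with h6 | h6
  · omega
  · exact h6

end Pool.Agent.Work.MP_098314_co
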