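import Mathlib
import Pool.Agent.Work.MP_098314_co.Cover

set_option autoImplicit false

namespace Pool.Agent.Work.MP_098314_co

/-- a disk from its first and last column and its lower and upper levels, the latter written as
numbers in base 64 (the digit number `k` is the level over column `k`) -/
def mkDk (a b lo up : ℕ) : Dk := ⟨a, b, fun k => lo / 64 ^ k % 64, fun k => up / 64 ^ k % 64⟩

/-- the fifteen disks, drawn over the columns `0, …, 47` -/
def disk : Fin 15 → Dk
  | 0 => mkDk 11 33
    3258714110637161477907171507084155855885260511467654428491776
    3271369507458345278776024036721668353914717380967725354975232
  | 1 => mkDk 19 42
    51811387908202232016577125237478213456980242103343734594676352331462586925056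
    51926261012711367168552081901348604098826446323824248303042681871458497462272
  | 2 => mkDk 4 42
    36644520304269708670753119263663572689352552297519292342107315862720051412992
    37107602944595195051901040148094135146171199103358988873882901494646655942656
  | 3 => mkDk 2 20
    27026306933549735931254601701532123136
    27048070361482913770598519072098107392
  | 4 => mkDk 5 41
    802316838558412992047372441850749008241050380029742860935576689587393658880
    807701946686408522015387431312510430847040615322046164757790066118542491648
  | 5 => mkDk 18 43
    2382356930024627866467830172278795332229248583533847163243382502137939026247680
    2389708808706574576125445316251622943221230765889253952242669765901507046146048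
  | 6 => mkDk 3 44
    120445713569749644225956187561948776737242028662455806985690189350913693921574912
    121842570519279172932653234365228187891860749850264027887167731303024735743901696
  | 7 => mkDk 17 44
    151074103268102307048539254010676430331510461501323521112578745274062695856865280
    152007791860682571103735782513718254761771643832809039795652986506802755258023936
  | 8 => mkDk 0 22
    55308037566328248115064922791848058822785
    55401210438543113437562526528868609978625
  | 9 => mkDk 8 46
    246688143054255409572587270380604741749954072973149278118804124873449531060934148096
    250634388918615656775297493316170645181006028840041903427085872479245066832307027968
  | 10 => mkDk 8 31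
    795559788320660050419748264647251914919560212959973081088
    798649104728437323885723807266560718461326161251718397952
  | 11 => mkDk 1 20
    28398396892381423645674678417399754944
    28419495990933979339298799661686481088
  | 12 => mkDk 1 45
    5781745188681931336513574591623542812711517911316880255078149468723960656014086208
    5873496404883767365259946570167023000636093107434192311833910795712480098183041088
  | 13 => mkDk 5 40
    14331092858757999852104031084361462429519664355085812862882585811408125952
    14359569409409514129892811405956905686551555199211044781017175160917065728
  | 14 => mkDk 7 47
    7894019626128441970142843499115968243080801185454631709263931379033121627816180318208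
    8144654014470784579876603019456183980108881438321751704069371219989713616358273449984

/-- the maximal cells of the arrangement, as bit masks -/
def masks : List ℕ := [84, 166, 170, 178, 344, 546, 1161, 1313, 1347, 1409, 2210, 2380, 2384, 2569, 3592, 6408, 8354, 8724, 10568, 12309, 13332, 17152, 18688, 19465, 20484, 20994, 21088, 21184, 24596]

theorem disks_ok : (List.finRange 15).all (fun i => diskOK 47 (disk i)) = true := by
  decide +kernel

theorem cross_ok : (List.finRange 15).all (fun i => (List.finRange 15).all (fun j =>
    decide (j ≤ i) || Dk.crossOK 47 (disk i) (disk j))) = true := by
  decide +kernel

theorem diff_ok : (List.finRange 15).all (fun i => (List.finRange 15).all (fun j =>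
    decide (i = j) || Dk.diffOK (disk i) (disk j))) = true := by
  decide +kernel

theorem meet_ok : (List.finRange 15).all (fun i => (List.finRange 15).all (fun j =>
    meetOK 47 (disk i) (disk j))) = true := by
  decide +kernel

theorem cells_ok : cellsOK 47 disk masks = true := by
  decide +kernel

theorem cover_ok : noCover masks 15 4 0 = true := by
  decide +kernel

end Pool.Agent.Work.MP_098314_co
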