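import Mathlib
import Pool.Agent.Work.MP_098314_co.Data

set_option autoImplicit false

namespace Pool.Agent.Work.MP_098314_co

open Set

/-- the family of the fifteen regions -/
def family : Set (Set (ℝ × ℝ)) := Set.range (fun i : Fin 15 => (disk i).set 47)

lemma disk_spec (i : Fin 15) :
    DiskOK 47 (disk i).a (disk i).b (disk i).lo (disk i).up := by
  have h := disks_ok
  rw [List.all_eq_true] at h
  exact diskOK_spec (h i (List.mem_finRange i))

lemma isConnected_sdiff {i j : Fin 15} (hij : i ≠ j) :
    IsConnected ((disk i).set 47 \ (disk j).set 47) := by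
  have h := diff_ok
  rw [List.all_eq_true] at h
  have h1 := h i (List.mem_finRange i)
  rw [List.all_eq_true] at h1
  have h2 := h1 j (List.mem_finRange j)
  rw [decide_eq_false hij, Bool.false_or] at h2
  exact Dk.isConnected_diff (disk_spec i) (disk_spec j) h2

lemma frontier_le_two {i j : Fin 15} (hij : i ≠ j) :
    (frontier ((disk i).set 47) ∩ frontier ((disk j).set 47)).encard ≤ 2 := by
  have h := cross_ok
  rw [List.all_eq_true] at h
  have key : ∀ i j : Fin 15, i < j →
      (frontier ((disk i).set 47) ∩ frontier ((disk j).set 47)).encard ≤ 2 := by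
    intro i j hlt
    have h1 := h i (List.mem_finRange i)
    rw [List.all_eq_true] at h1
    have h2 := h1 j (List.mem_finRange j)
    rw [decide_eq_false (not_le.2 hlt), Bool.false_or] at h2
    exact Dk.frontier_inter_encard (disk_spec i) (disk_spec j) h2
  rcases lt_or_gt_of_ne hij with h1 | h1
  · exact key i j h1
  · rw [Set.inter_comm]; exact key j i h1

lemma injective_family : Function.Injective (fun i : Fin 15 => (disk i).set 47) := by
  intro i j hij
  by_contra hne
  obtain ⟨p, hp1, hp2⟩ := (isConnected_sdiff hne).nonempty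
  simp only at hij
  rw [hij] at hp1
  exact hp2 hp1

lemma family_region : ∀ F ∈ family, IsRegion F ∧ SimplyConnectedSpace F := by
  rintro _ ⟨i, rfl⟩
  exact ⟨(disk_spec i).nice.isRegion, (disk_spec i).nice.simplyConnected⟩

lemma family_pseudoDisk : PseudoDiskFamily family := by
  refine ⟨family_region, ?_⟩
  rintro _ ⟨i, rfl⟩ _ ⟨j, rfl⟩ hne
  exact frontier_le_two (fun h => hne (by rw [h]))

lemma family_nonPiercing : NonPiercing family := by
  constructor
  · rintro _ ⟨i, rfl⟩ _ ⟨j, rfl⟩ hne
    apply Set.finite_of_encard_le_coe (k := 2)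
    exact frontier_le_two (fun h => hne (by rw [h]))
  · rintro _ ⟨i, rfl⟩ _ ⟨j, rfl⟩ hne
    exact isConnected_sdiff (fun h => hne (by rw [h]))

lemma family_pairwiseIntersecting : PairwiseIntersecting family := by
  rintro _ ⟨i, rfl⟩ _ ⟨j, rfl⟩
  have h := meet_ok
  rw [List.all_eq_true] at h
  have h1 := h i (List.mem_finRange i)
  rw [List.all_eq_true] at h1
  exact inter_nonempty (disk_spec i) (disk_spec j) (h1 j (List.mem_finRange j))

lemma family_not_pierced : ¬ CanBePierced family 4 := by
  rintro ⟨P, hP, h⟩
  obtain ⟨i, hi⟩ := not_pierced (q := 4) (K := 47) (D := disk) (M := masks) (by norm_num)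
    (fun i => (disk_spec i).hbK) (by unfold masks; simp) cells_ok cover_ok P hP
  obtain ⟨p, hp1, hp2⟩ := h _ ⟨i, rfl⟩
  exact hi p hp1 hp2

lemma family_ncard : family.ncard = 15 := by
  unfold family
  rw [← Set.image_univ, Set.ncard_image_of_injective _ injective_family, Set.ncard_univ]
  simp

end Pool.Agent.Work.MP_098314_co
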